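import Pool.Agent.Lib_MP_8da2c8.Defs

/-!
STEP BorelA: `κ`-Borel sets.
-/

namespace MP8da

open Cardinal Set
open scoped Classical

universe u
variable {l : Cardinal.{u}} {K : Type u} [LinearOrder K] [Inhabited K]

theorem kb_univ : KBorel (univ : Set (K → Bool)) := by
  exact KBorel.basic _ fun _ _ => ⟨default, fun _ _ => mem_univ _⟩

theorem kb_empty : KBorel (∅ : Set (K → Bool)) := by
  exact KBorel.basic _ fun _ h => absurd h (notMem_empty _)

theorem kb_prop (P : Prop) : KBorel {_η : K → Bool | P} := by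
  by_cases h : P
  · have : {_η : K → Bool | P} = Set.univ := by
      ext; simp [h]
    rw [this]
    exact kb_univ
  · have : {_η : K → Bool | P} = ∅ := by
      ext; simp [h]
    rw [this]
    exact kb_empty

theorem kb_iInter (ι : Type u) (A : ι → Set (K → Bool)) (hι : #ι ≤ #K) (hA : ∀ i, KBorel (A i)) :
    KBorel (⋂ i, A i) := by
  have : (⋂ i, A i) = (⋃ i, (A i)ᶜ)ᶜ := by
    simp
  rw [this]
  exact KBorel.compl _ (KBorel.union ι _ hι fun i => KBorel.compl _ (hA i))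

theorem kb_nat_iInter (hK : KOK l K) (A : ℕ → Set (K → Bool)) (hA : ∀ i, KBorel (A i)) :
    KBorel (⋂ i, A i) := by
  have : (⋂ i, A i) = ⋂ i : ULift.{u} ℕ, A i.down := by
    ext x
    simp only [mem_iInter]
    exact ⟨fun h i => h i.down, fun h i => h ⟨i⟩⟩
  rw [this]
  refine kb_iInter _ _ ?_ fun i => hA _
  rw [hK.card]
  refine le_trans ?_ (hK.inf.trans (Order.le_succ l))
  exact Cardinal.mk_le_aleph0

theorem kb_inter (hK : KOK l K) (A B : Set (K → Bool)) (hA : KBorel A) (hB : KBorel B) :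
    KBorel (A ∩ B) := by
  have : A ∩ B = ⋂ i : ℕ, (if i = 0 then A else B) := by
    ext x
    simp only [mem_iInter, mem_inter_iff]
    constructor
    · intro h i
      split_ifs
      · exact h.1
      · exact h.2
    · intro h
      refine ⟨?_, ?_⟩
      · have := h 0
        simpa using this
      · have := h 1
        simpa using this
  rw [this]
  refine kb_nat_iInter hK _ fun i => ?_
  split_ifs
  · exact hA
  · exact hB

theorem kb_union2 (hK : KOK l K) (A B : Set (K → Bool)) (hA : KBorel A) (hB : KBorel B) :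
    KBorel (A ∪ B) := by
  have : A ∪ B = (Aᶜ ∩ Bᶜ)ᶜ := by
    simp [compl_inter]
  rw [this]
  exact KBorel.compl _ (kb_inter hK _ _ (KBorel.compl _ hA) (KBorel.compl _ hB))

/-- Boolean combinations: if `V`, `V'` are Borel then so is any set of `η` decided by whether `η ∈ V` and whether
`η ∈ V'`. -/
theorem kb_cases (hK : KOK l K) (V V' : Set (K → Bool)) (hV : KBorel V) (hV' : KBorel V')
    (A : Set (K → Bool)) (h : ∀ η ξ, (η ∈ V ↔ ξ ∈ V) → (η ∈ V' ↔ ξ ∈ V') → (η ∈ A ↔ ξ ∈ A)) :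
    KBorel A := by
  have h1 : A = ((V ∩ V') ∩ {_η | ∃ ξ ∈ A, ξ ∈ V ∧ ξ ∈ V'}) ∪
      (((V ∩ V'ᶜ) ∩ {_η | ∃ ξ ∈ A, ξ ∈ V ∧ ξ ∉ V'}) ∪
      (((Vᶜ ∩ V') ∩ {_η | ∃ ξ ∈ A, ξ ∉ V ∧ ξ ∈ V'}) ∪
      ((Vᶜ ∩ V'ᶜ) ∩ {_η | ∃ ξ ∈ A, ξ ∉ V ∧ ξ ∉ V'}))) := by
    ext η
    simp only [mem_union, mem_inter_iff, mem_compl_iff, mem_ofPred_eq]
    constructor
    · intro hη
      by_cases h1 : η ∈ V <;> by_cases h2 : η ∈ V'
      · exact Or.inl ⟨⟨h1, h2⟩, η, hη, h1, h2⟩
      · exact Or.inr (Or.inl ⟨⟨h1, h2⟩, η, hη, h1, h2⟩)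
      · exact Or.inr (Or.inr (Or.inl ⟨⟨h1, h2⟩, η, hη, h1, h2⟩))
      · exact Or.inr (Or.inr (Or.inr ⟨⟨h1, h2⟩, η, hη, h1, h2⟩))
    · rintro (⟨⟨h1, h2⟩, ξ, hξ, h3, h4⟩ | ⟨⟨h1, h2⟩, ξ, hξ, h3, h4⟩ | ⟨⟨h1, h2⟩, ξ, hξ, h3, h4⟩ |
        ⟨⟨h1, h2⟩, ξ, hξ, h3, h4⟩)
      · exact (h ξ η (by simp [h1, h3]) (by simp [h2, h4])).1 hξ
      · exact (h ξ η (by simp [h1, h3]) (by simp [h2, h4])).1 hξ
      · exact (h ξ η (by simp [h1, h3]) (by simp [h2, h4])).1 hξ
      · exact (h ξ η (by simp [h1, h3]) (by simp [h2, h4])).1 hξ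
  rw [h1]
  have hVc := KBorel.compl _ hV
  have hVc' := KBorel.compl _ hV'
  refine kb_union2 hK _ _ (kb_inter hK _ _ (kb_inter hK _ _ hV hV') (kb_prop _)) ?_
  refine kb_union2 hK _ _ (kb_inter hK _ _ (kb_inter hK _ _ hV hVc') (kb_prop _)) ?_
  exact kb_union2 hK _ _ (kb_inter hK _ _ (kb_inter hK _ _ hVc hV') (kb_prop _))
    (kb_inter hK _ _ (kb_inter hK _ _ hVc hVc') (kb_prop _))

/-- Proof.  Let `U` be open.  For `δ : K` and `s : Iio δ → Bool` let `N δ s = {ξ | ∀ α : Iio δ, ξ α = s α}`.  `U` is the union of the `N δ s`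
over the `(δ, s)` with `N δ s ⊆ U`; these are at most `#(Σ δ : K, (Iio δ → Bool)) ≤ #K * 2 ^ l = #K` many
(`hK.init`, `hK.gch`, `hK.card`).  And `f ⁻¹' N δ s = ⋂ α : Iio δ, {η | f η α = s α}`, an intersection of at most `#K`
many Borel sets (`kb_iInter`; `{η | f η α = false}` is a complement). -/
theorem borelMap_of (hK : KOK l K) (f : (K → Bool) → (K → Bool))
    (hf : ∀ k, KBorel {η | f η k = true}) : BorelMap f := by
  intro U hU
  let N : (Σ δ : K, (Iio δ → Bool)) → Set (K → Bool) := fun p => {ξ | ∀ α : Iio p.1, ξ α = p.2 α}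
  have hcard : #(Σ δ : K, (Iio δ → Bool)) ≤ #K := by
    rw [mk_sigma]
    refine (sum_le_mk_mul_iSup _).trans ?_
    have h1 : ∀ δ : K, #(Iio δ → Bool) ≤ #K := by
      intro δ
      have h0 : #(Iio δ → Bool) = 2 ^ #(Iio δ) := by simp
      rw [h0, hK.card, ← hK.gch]
      exact power_le_power_left two_ne_zero (hK.init δ)
    have h2 : ℵ₀ ≤ #K := by
      rw [hK.card]
      exact hK.inf.trans (Order.le_succ l)
    calc #K * ⨆ δ : K, #(Iio δ → Bool) ≤ #K * #K := mul_le_mul' le_rfl (ciSup_le' h1)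
      _ = #K := mul_eq_self h2
  have hUeq : f ⁻¹' U = ⋃ p : {p : (Σ δ : K, (Iio δ → Bool)) // N p ⊆ U}, f ⁻¹' (N p.1) := by
    ext η
    simp only [mem_iUnion, mem_preimage]
    constructor
    · intro hη
      obtain ⟨δ, hδ⟩ := hU _ hη
      refine ⟨⟨⟨δ, fun α => f η α⟩, ?_⟩, fun α => rfl⟩
      intro ξ hξ
      exact hδ ξ fun α hα => hξ ⟨α, hα⟩
    · rintro ⟨p, hp⟩
      exact p.2 hp
  rw [hUeq]
  refine KBorel.union _ _ ((mk_subtype_le _).trans hcard) ?_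
  rintro ⟨p, -⟩
  have hN : f ⁻¹' (N p) = ⋂ α : Iio p.1, {η | f η α = p.2 α} := by
    ext η
    simp only [mem_iInter, mem_preimage, N, mem_ofPred_eq]
  rw [hN]
  refine kb_iInter _ _ (mk_set_le _) fun α => ?_
  cases hpα : p.2 α with
  | true => exact hf α
  | false =>
    have : {η : K → Bool | f η α = false} = {η | f η α = true}ᶜ := by
      ext η
      simp
    rw [this]
    exact KBorel.compl _ (hf α)

end MP8da
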