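import Pool.Agent.Lib_MP_8da2c8.Defs

/-!
STEP Ext: extending nodes to valid branches.
-/

namespace MP8da

open Cardinal Set
open scoped Classical

universe u
variable {K : Type u} [LinearOrder K] [Inhabited K]

theorem ext_lt (b : ℕ → Sy K) {n i : ℕ} (s : Sy K) (h : i < n) : ext b n s i = b i := by
  unfold ext
  rw [if_pos h]

private theorem Ext_add (b : ℕ → Sy K) (n k : ℕ) (s : Sy K) : ext b n s (n + k) = cont s k := by
  unfold ext
  rw [if_neg (by omega), Nat.add_sub_cancel_left]

theorem ext_at (b : ℕ → Sy K) (n : ℕ) (s : Sy K) : ext b n s n = s := Ext_add b n 0 s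

theorem agr_ext (b : ℕ → Sy K) (n : ℕ) (s : Sy K) : Agr n b (ext b n s) :=
  fun _ h => (ext_lt b s h).symm

theorem prev_eq_of_agr {b c : ℕ → Sy K} {n : ℕ} (h : Agr n b c) : prev b n = prev c n := by
  cases n with
  | zero => rfl
  | succ n => exact h n (Nat.lt_succ_self n)

/-- the first three symbols `s, nxt s, nxt (nxt s)` are not all main, and `Step D s (nxt s)` always -/
theorem step_nxt (D : Set K) (s : Sy K) : Step D s (nxt s) := by
  cases s <;> simp [nxt, Step]

theorem not_isM_nxt (s : Sy K) : ¬ IsM (nxt s) := by
  cases s <;> simp [nxt, IsM]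

/-- Proof.  For `i < n` the steps are those of `b`; at `n` it is `hs` (`prev (ext b n s) n = prev b n`); after `n` it is
`step_nxt`.  The branch is not all main because the symbol at `n+1` is `nxt s`. -/
theorem ext_valid {D : Set K} {b : ℕ → Sy K} (hb : Valid D b) (n : ℕ) (s : Sy K)
    (hs : Step D (prev b n) s) : Valid D (ext b n s) := by
  refine ⟨fun i => ?_, fun h => ?_⟩
  · rcases lt_trichotomy i n with hi | hi | hi
    · have h1 : prev (ext b n s) i = prev b i := by
        cases i with
        | zero => rfl
        | succ i => exact ext_lt b s (by omega)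
      rw [h1, ext_lt b s hi]
      exact hb.1 i
    · subst hi
      have h1 : prev (ext b i s) i = prev b i := by
        cases i with
        | zero => rfl
        | succ i => exact ext_lt b s (by omega)
      rw [h1, ext_at]
      exact hs
    · obtain ⟨k, rfl⟩ : ∃ k, i = n + (k + 1) := ⟨i - n - 1, by omega⟩
      have h1 : prev (ext b n s) (n + (k + 1)) = cont s k := Ext_add b n k s
      rw [h1, Ext_add]
      exact step_nxt D (cont s k)
  · exfalso
    have h1 := h (n + 1)
    rw [Ext_add] at h1
    exact not_isM_nxt s h1

theorem d0_valid (D : Set K) : Valid D (d0 K) := by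
  refine ⟨fun i => ?_, fun h => ?_⟩
  · cases i with
    | zero =>
      show Step D (start K) (start K)
      simp [start, Step, uok]
    | succ i => exact step_nxt D (d0 K i)
  · exact absurd (h 1) (not_isM_nxt (start K))

theorem br_valid (D : Set K) (b : ℕ → Sy K) : Valid D (br D b) := by
  unfold br
  split_ifs with h
  · exact h
  · exact d0_valid D

theorem br_of_valid {D : Set K} {b : ℕ → Sy K} (hb : Valid D b) : br D b = b := by
  unfold br
  rw [if_pos hb]

private theorem Ext_isM {D : Set K} {s r : Sy K} (h : Step D s r) (hr : IsM r) : IsM s := by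
  cases r with
  | m a v =>
    cases s with
    | m _ _ => trivial
    | g _ _ => simp [Step] at h
    | t _ => simp [Step] at h
    | z _ => simp [Step] at h
  | g _ _ => simp [IsM] at hr
  | t _ => simp [IsM] at hr
  | z _ => simp [IsM] at hr

/-- in a valid branch, if the symbol at `n` is main then so is every earlier one -/
theorem isM_of_valid {D : Set K} {b : ℕ → Sy K} (hb : Valid D b) {n : ℕ} (hn : IsM (b n)) :
    ∀ i ≤ n, IsM (b i) := by
  induction n with
  | zero =>
    intro i hi
    obtain rfl : i = 0 := by omega
    exact hn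
  | succ n ih =>
    intro i hi
    rcases Nat.lt_or_ge n i with h | h
    · obtain rfl : i = n + 1 := by omega
      exact hn
    · exact ih (Ext_isM (hb.1 (n + 1)) hn) i h

end MP8da
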