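import Pool.Agent.Lib_MP_8da2c8.ClubA

/-!
STEP Local: goodness depends only on an initial segment of the set.
-/

namespace MP8da

open Cardinal Set
open scoped Classical

universe u
variable {l : Cardinal.{u}} {K : Type u} [LinearOrder K] [WellFoundedLT K] [Inhabited K]

/-- Proof: by cases.  In the cases `xx, out0, outS, in0, inS` take `δ0 > α` (`bdd_small` for `{α}`); in the case
`id` any `δ0` works, because `D' \ E' ⊆ D \ E` and `E' \ D' ⊆ E \ D`. -/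
theorem lk_local (hK : KOK l K) {β : K → K} {D E : Set K} {h h' : Finset ℕ} {v v' : US K}
    (hv : Lk β D E h h' v v') : ∃ δ0 : K, ∀ δ, δ0 ≤ δ → ∀ D' E' : Set K,
      (∀ α < δ, (α ∈ D' ↔ α ∈ D)) → (∀ α < δ, (α ∈ E' ↔ α ∈ E)) →
      (∀ α, δ ≤ α → (α ∈ D' ↔ α ∈ E')) → Lk β D' E' h h' v v' := by
  have hb : ∀ α : K, ∃ δ0 : K, α < δ0 := by
    intro α
    obtain ⟨δ, hδ⟩ := bdd_small hK {α} (by
      rw [mk_singleton]; exact one_le_aleph0.trans hK.inf)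
    exact ⟨δ, hδ α rfl⟩
  cases hv with
  | xx α h1 h2 =>
    obtain ⟨δ0, h0⟩ := hb α
    refine ⟨δ0, fun δ hδ D' E' hD hE _ => ?_⟩
    exact Lk.xx α ((hD α (h0.trans_le hδ)).2 h1) ((hE α (h0.trans_le hδ)).2 h2)
  | out0 α h1 h2 =>
    obtain ⟨δ0, h0⟩ := hb α
    refine ⟨δ0, fun δ hδ D' E' hD hE _ => ?_⟩
    exact Lk.out0 α ((hD α (h0.trans_le hδ)).2 h1) (fun h => h2 ((hE α (h0.trans_le hδ)).1 h))
  | outS α i h1 h2 =>
    obtain ⟨δ0, h0⟩ := hb α
    refine ⟨δ0, fun δ hδ D' E' hD hE _ => ?_⟩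
    exact Lk.outS α i ((hD α (h0.trans_le hδ)).2 h1) (fun h => h2 ((hE α (h0.trans_le hδ)).1 h))
  | in0 α h1 h2 =>
    obtain ⟨δ0, h0⟩ := hb α
    refine ⟨δ0, fun δ hδ D' E' hD hE _ => ?_⟩
    exact Lk.in0 α (fun h => h1 ((hD α (h0.trans_le hδ)).1 h)) ((hE α (h0.trans_le hδ)).2 h2)
  | inS α i h1 h2 =>
    obtain ⟨δ0, h0⟩ := hb α
    refine ⟨δ0, fun δ hδ D' E' hD hE _ => ?_⟩
    exact Lk.inS α i (fun h => h1 ((hD α (h0.trans_le hδ)).1 h)) ((hE α (h0.trans_le hδ)).2 h2)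
  | id g γ i h1 h2 =>
    refine ⟨default, fun δ _ D' E' hD hE hDE => ?_⟩
    refine Lk.id g γ i ?_ ?_
    · intro α ha hb
      rcases lt_or_ge α δ with h | h
      · exact h1 α ((hD α h).1 ha) (fun h' => hb ((hE α h).2 h'))
      · exact absurd ((hDE α h).1 ha) hb
    · intro α ha hb
      rcases lt_or_ge α δ with h | h
      · exact h2 α (fun h' => ha ((hD α h).2 h')) ((hE α h).1 hb)
      · exact absurd ((hDE α h).2 hb) ha

/-- a countable family is bounded -/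
theorem local_bdd (hK : KOK l K) (s : ℕ → K) : ∃ δ, ∀ n, s n < δ := by
  obtain ⟨δ, hδ⟩ := bdd_small hK (range s) (by
    refine le_trans ?_ hK.inf
    exact (countable_range s).le_aleph0)
  exact ⟨δ, fun n => hδ _ ⟨n, rfl⟩⟩

theorem link_local (hK : KOK l K) {β : K → K} {D E : Set K} {b c : ℕ → Sy K}
    (hl : Link β D E b c) : ∃ δ0 : K, ∀ δ, δ0 ≤ δ → ∀ D' E' : Set K,
      (∀ α < δ, (α ∈ D' ↔ α ∈ D)) → (∀ α < δ, (α ∈ E' ↔ α ∈ E)) →
      (∀ α, δ ≤ α → (α ∈ D' ↔ α ∈ E')) → Link β D' E' b c := by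
  have h1 : ∀ k, ∃ δ0 : K, ∀ δ, δ0 ≤ δ → ∀ D' E' : Set K,
      (∀ α < δ, (α ∈ D' ↔ α ∈ D)) → (∀ α < δ, (α ∈ E' ↔ α ∈ E)) →
      (∀ α, δ ≤ α → (α ∈ D' ↔ α ∈ E')) →
      LkS β D' E' (H b k) (H c k) (b k) (c k) := by
    intro k
    have hk := hl k
    generalize b k = x at hk ⊢
    generalize c k = y at hk ⊢
    cases hk with
    | m a v v' hv =>
      obtain ⟨δ0, h0⟩ := lk_local hK hv
      exact ⟨δ0, fun δ hδ D' E' hD hE hDE => LkS.m a v v' (h0 δ hδ D' E' hD hE hDE)⟩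
    | g ρ i => exact ⟨default, fun δ _ D' E' _ _ _ => LkS.g ρ i⟩
    | t i => exact ⟨default, fun δ _ D' E' _ _ _ => LkS.t i⟩
    | z n => exact ⟨default, fun δ _ D' E' _ _ _ => LkS.z n⟩
  choose s hs using h1
  obtain ⟨δ0, h0⟩ := local_bdd hK s
  exact ⟨δ0, fun δ hδ D' E' hD hE hDE k => hs k δ ((h0 k).le.trans hδ) D' E' hD hE hDE⟩

/-- Proof: induction on `Gd`.  Base: take `δ` above all the (countably many) `α` with `b k = .m a (.x α)`
for some `k, a` (`bdd_small`, `ℵ₀ ≤ l`).  Link `Gd D b`, `Reg β D E`, `Link β D E b c`: let `δ1` be given by the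
induction hypothesis for `Gd D b`, `δ2` by `link_local`, `δ = max δ1 δ2`.  Given `E'` that agrees with `E` below `δ`,
let `D' = {α | (α < δ ∧ α ∈ D) ∨ (δ ≤ α ∧ α ∈ E')}`.  Then `Gd D' b`; `Df D' E' ⊆ Df D E`, so `Reg β D' E'`; and
`Link β D' E' b c`; so `Gd E' c`. -/
theorem gd_local (hK : KOK l K) {E : Set K} {c : ℕ → Sy K} (h : Gd E c) :
    ∃ δ : K, ∀ E' : Set K, (∀ α < δ, (α ∈ E' ↔ α ∈ E)) → Gd E' c := by
  induction h with
  | base D b hh hD =>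
    obtain ⟨δ, hδ⟩ := local_bdd hK (fun k => match b k with
      | .m _ (.x α) => α
      | _ => default)
    refine ⟨δ, fun E' hE' => Gd.base E' b hh fun k a α hk => ?_⟩
    have h1 := hδ k
    rw [hk] at h1
    exact (hE' α h1).2 (hD k a α hk)
  | link D E β b c _ hR hL ih =>
    obtain ⟨δ1, h1⟩ := ih
    obtain ⟨δ2, h2⟩ := link_local hK hL
    refine ⟨max δ1 δ2, fun E' hE' => ?_⟩
    let D' : Set K := {α | (α < max δ1 δ2 ∧ α ∈ D) ∨ (max δ1 δ2 ≤ α ∧ α ∈ E')}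
    have hD1 : ∀ α < max δ1 δ2, (α ∈ D' ↔ α ∈ D) := by
      intro α hα
      constructor
      · rintro (h | h)
        · exact h.2
        · exact absurd hα (not_lt.2 h.1)
      · exact fun h => Or.inl ⟨hα, h⟩
    have hD2 : ∀ α, max δ1 δ2 ≤ α → (α ∈ D' ↔ α ∈ E') := by
      intro α hα
      constructor
      · rintro (h | h)
        · exact absurd h.1 (not_lt.2 hα)
        · exact h.2
      · exact fun h => Or.inr ⟨hα, h⟩
    have hDf : Df D' E' ⊆ Df D E := by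
      intro α hα hiff
      apply hα
      rcases lt_or_ge α (max δ1 δ2) with h | h
      · rw [hD1 α h, hE' α h, hiff]
      · exact hD2 α h
    refine Gd.link D' E' β b c (h1 D' fun α hα => hD1 α (hα.trans_le (le_max_left _ _)))
      ⟨fun α hα => hR.1 α (hDf hα), hR.2.mono hDf⟩ ?_
    exact h2 _ (le_max_right _ _) D' E' hD1 hE' hD2

end MP8da
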