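import Pool.Agent.Lib_MP_8da2c8.BorelA
import Pool.Agent.Lib_MP_8da2c8.Local
import Pool.Agent.Lib_MP_8da2c8.Ext

/-!
STEP BorelB: the reduction is Borel.
-/

namespace MP8da

open Cardinal Set
open scoped Classical

universe u
variable {l : Cardinal.{u}} {K : Type u} [LinearOrder K] [WellFoundedLT K] [Inhabited K]

theorem dd_local (S : Set K) {η ξ : K → Bool} {δ : K} (h : ∀ α < δ, ξ α = η α) :
    ∀ α < δ, (α ∈ DD l S ξ ↔ α ∈ DD l S η) := by
  intro α hα
  simp only [DD, mem_ofPred_eq, h α hα]

/-- by `gd_local` and `dd_local` -/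
theorem bopen_gd (hK : KOK l K) (S : Set K) (b : ℕ → Sy K) : BOpen {η | Gd (DD l S η) b} := by
  intro η hη
  obtain ⟨δ, hδ⟩ := gd_local hK hη
  exact ⟨δ, fun ξ h => hδ _ (dd_local S h)⟩

/-- Proof.  `Step D s s'` depends on `D` only if `s'` is `.m a (.x α)` and `s` is main, and then it is
`α ∈ DD l S η`, i.e. `α ∈ S ∧ α ∈ C0 l K ∧ η α = true`: an open set of `η` (for `δ` take a point above `α`, `bdd_small`).  The other
cases are `kb_prop`. -/
theorem kb_step (hK : KOK l K) (S : Set K) (s s' : Sy K) :
    KBorel {η | Step (DD l S η) s s'} := by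
  cases s with
  | m a v =>
    cases s' with
    | m a' v' =>
      cases v' with
      | x α =>
        refine KBorel.basic _ ?_
        intro η hη
        obtain ⟨δ, hδ⟩ := bdd_small hK {α} (by
          rw [mk_singleton]
          exact one_le_aleph0.trans hK.inf)
        exact ⟨δ, fun ξ h => ((dd_local S h) α (hδ α rfl)).2 hη⟩
      | y g β i => exact kb_prop True
    | g ρ i => exact kb_prop (ρ = a)
    | t i => exact kb_prop False
    | z n => exact kb_prop False
  | g ρ i =>
    cases s' with
    | m a' v' => exact kb_prop False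
    | g ρ' i => exact kb_prop (ρ' < ρ)
    | t i => exact kb_prop True
    | z n => exact kb_prop False
  | t i =>
    cases s' with
    | m a' v' => exact kb_prop False
    | g ρ i => exact kb_prop False
    | t i => exact kb_prop False
    | z n => exact kb_prop True
  | z n =>
    cases s' with
    | m a' v' => exact kb_prop False
    | g ρ i => exact kb_prop False
    | t i => exact kb_prop False
    | z n => exact kb_prop True

/-- Proof.  The intersection of the countable intersection of the sets of `kb_step` and of the set of `η` with `Gd (DD l S η) b` (open) if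
`b` is all main, everything otherwise. -/
theorem kb_valid (hK : KOK l K) (S : Set K) (b : ℕ → Sy K) :
    KBorel {η | Valid (DD l S η) b} := by
  have h1 : {η : K → Bool | Valid (DD l S η) b} =
      (⋂ n : ℕ, {η : K → Bool | Step (DD l S η) (prev b n) (b n)}) ∩
        {η : K → Bool | (∀ n, IsM (b n)) → Gd (DD l S η) b} := by
    ext η
    simp only [Valid, mem_ofPred_eq, mem_inter_iff, mem_iInter]
  rw [h1]
  refine kb_inter hK _ _ (kb_nat_iInter hK _ fun n => kb_step hK S _ _) ?_
  by_cases h : ∀ n, IsM (b n)
  · have h2 : {η : K → Bool | (∀ n, IsM (b n)) → Gd (DD l S η) b} =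
        {η : K → Bool | Gd (DD l S η) b} := by
      ext η
      simp only [mem_ofPred_eq, h, implies_true, forall_const]
    rw [h2]
    exact KBorel.basic _ (bopen_gd hK S b)
  · have h2 : {η : K → Bool | (∀ n, IsM (b n)) → Gd (DD l S η) b} = {_η : K → Bool | True} := by
      ext η
      simp only [mem_ofPred_eq, h, false_imp_iff]
    rw [h2]
    exact kb_prop True

/-- Proof.  `EE I p (DD l S η) n q q'` is decided by whether `Valid (DD l S η) q.1` and whether
`Valid (DD l S η) q'.1` (unfold `EE`, `br`); use `kb_cases`. -/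
theorem kb_EE (hK : KOK l K) (S : Set K) (I : Set ℕ) (p : ℕ → ℕ) (n : ℕ) (q q' : Q K p) :
    KBorel {η | EE I p (DD l S η) n q q'} := by
  refine kb_cases hK _ _ (kb_valid hK S q.1) (kb_valid hK S q'.1) _ ?_
  intro η ξ h1 h2
  simp only [mem_ofPred_eq] at h1 h2
  have hbr : ∀ b : ℕ → Sy K, (Valid (DD l S η) b ↔ Valid (DD l S ξ) b) →
      br (DD l S η) b = br (DD l S ξ) b := by
    intro b h
    unfold br
    by_cases h' : Valid (DD l S η) b
    · rw [if_pos h', if_pos (h.1 h')]
    · rw [if_neg h', if_neg (fun h'' => h' (h.2 h''))]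
  simp only [mem_ofPred_eq, EE, hbr _ h1, hbr _ h2]

theorem borelMap_code (hK : KOK l K) (S : Set K) (I : Set ℕ) (p : ℕ → ℕ) (e : K ≃ Q K p)
    (π : ℕ × K × K ≃ K) : BorelMap (code l S I p e π) := by
  refine borelMap_of hK _ fun k => ?_
  simp only [code, decide_eq_true_eq]
  exact kb_EE hK S I p _ _ _

end MP8da
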