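import Pool.Agent.Lib_MP_8da2c8.Defs

/-!
STEP ClubA.  `K` is a well-order with `KOK l K`: `ℵ₀ ≤ l`, `#K = succ l`, all initial segments have
size `≤ l`.
-/

namespace MP8da

open Cardinal Set

universe u
variable {l : Cardinal.{u}} {K : Type u} [LinearOrder K] [WellFoundedLT K]

/-- Proof.  Otherwise `∀ δ, ∃ x ∈ X, δ ≤ x`, so `univ = ⋃ x ∈ X, Iic x`; every `Iic x` has size
`≤ l + 1 = l` (`Iic x = insert x (Iio x)`), so `#K ≤ l * l = l < succ l = #K`. -/
theorem bdd_small (hK : KOK l K) (X : Set K) (hX : #X ≤ l) : ∃ δ, ∀ x ∈ X, x < δ := by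
  by_contra hcon
  push Not at hcon
  have h1 : (univ : Set K) ⊆ ⋃ x : X, Iic (x : K) := by
    intro δ _
    obtain ⟨x, hx, hδ⟩ := hcon δ
    exact mem_iUnion.2 ⟨⟨x, hx⟩, hδ⟩
  have h2 : ∀ x : K, #(Iic x) ≤ l := by
    intro x
    have h3 : Iic x = insert x (Iio x) := by
      ext y
      simp [le_iff_eq_or_lt]
    rw [h3]
    refine (mk_insert_le).trans ?_
    exact add_le_of_le hK.inf (hK.init x) (one_le_aleph0.trans hK.inf)
  have h3 : #K ≤ l := by
    calc #K = #(univ : Set K) := mk_univ.symm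
      _ ≤ #(⋃ x : X, Iic (x : K)) := mk_le_mk_of_subset h1
      _ ≤ #X * ⨆ x : X, #(Iic (x : K)) := mk_iUnion_le _
      _ ≤ l * l := mul_le_mul' hX (ciSup_le' fun x => h2 x)
      _ = l := mul_eq_self hK.inf
  rw [hK.card] at h3
  exact absurd h3 (not_le.2 (Order.lt_succ l))

/-- Proof.  `cof K = ℵ₀` would give a cofinal set of size `ℵ₀ ≤ l` (`Order.exists_cof_eq` or the
like), contradicting `bdd_small`. -/
theorem cofK (hK : KOK l K) : Order.cof K ≠ ℵ₀ := by
  intro h
  obtain ⟨s, hs, hs'⟩ := Order.exists_cof_eq K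
  obtain ⟨δ, hδ⟩ := bdd_small hK s (by rw [hs', h]; exact hK.inf)
  obtain ⟨x, hx, hx'⟩ := hs δ
  exact absurd (hδ x hx) (not_lt.2 hx')

/-- The closure points of a function form a club.
Proof.  Closed under suprema: if `t ⊆ {…}` is nonempty with least upper bound `δ` and `γ < δ`,
then `γ < δ'` for some `δ' ∈ t` and `G γ ≤ δ' ≤ δ`.  Cofinal: given `a`, let `a 0 = a` and let
`a (n+1)` be a strict upper bound (`bdd_small`) of the set `{a n} ∪ G '' (Iio (a n))`, which has
size `≤ l`.  The countable set `{a n}` is bounded (`bdd_small`); its least upper bound `δ` (the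
least upper bound exists: `WellFounded.min` of the set of upper bounds) is `≥ a`, and for `γ < δ` there
is `n` with `γ < a n`, so `G γ < a (n+1) ≤ δ`. -/
theorem club_closure (hK : KOK l K) (G : K → K) : IsClub {δ : K | ∀ γ < δ, G γ ≤ δ} := by
  constructor
  · intro t ht hne _ δ hδ γ hγ
    obtain ⟨δ', hδ', h1⟩ := (lt_isLUB_iff hδ).1 hγ
    exact (ht hδ' γ h1).trans (hδ.1 hδ')
  · intro a
    have hstep : ∀ a : K, ∃ b : K, a < b ∧ ∀ γ < a, G γ < b := by
      intro a
      obtain ⟨b, hb⟩ := bdd_small hK (insert a (G '' (Iio a))) (by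
        refine (mk_insert_le).trans ?_
        exact add_le_of_le hK.inf ((mk_image_le).trans (hK.init a)) (one_le_aleph0.trans hK.inf))
      exact ⟨b, hb a (mem_insert _ _), fun γ hγ => hb _ (mem_insert_of_mem _ ⟨γ, hγ, rfl⟩)⟩
    choose F hF1 hF2 using hstep
    let s : ℕ → K := fun n => F^[n] a
    have hs : ∀ n, s (n + 1) = F (s n) := fun n => Function.iterate_succ_apply' F n a
    obtain ⟨b, hb⟩ := bdd_small hK (range s) (by
      refine le_trans ?_ hK.inf
      exact (countable_range s).le_aleph0)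
    have hne : (upperBounds (range s)).Nonempty := by
      refine ⟨b, ?_⟩
      intro x hx
      exact (hb x hx).le
    let δ := WellFounded.min (wellFounded_lt (α := K)) (upperBounds (range s)) hne
    have hδ1 : δ ∈ upperBounds (range s) := WellFounded.min_mem _ _ _
    have hδ2 : ∀ γ < δ, ∃ n, γ < s n := by
      intro γ hγ
      by_contra hcon
      push Not at hcon
      refine WellFounded.not_lt_min (wellFounded_lt (α := K)) (upperBounds (range s)) (x := γ) ?_ hγ
      rintro _ ⟨n, rfl⟩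
      exact hcon n
    refine ⟨δ, ?_, hδ1 ⟨0, rfl⟩⟩
    intro γ hγ
    obtain ⟨n, hn⟩ := hδ2 γ hγ
    have h1 := hF2 (s n) γ hn
    rw [← hs] at h1
    exact h1.le.trans (hδ1 ⟨n + 1, rfl⟩)

/-- A regressive function with small fibers lives on a nonstationary set.
Proof.  Let `G γ` be a strict upper bound of the fiber of `γ` (`bdd_small`).  If `Z` is stationary
it meets the club `{δ | ∀ γ < δ, G γ ≤ δ}` in some `α`; then `r α < α`, hence `G (r α) ≤ α`; but `α` is in
the fiber of `r α`, so `α < G (r α)`, contradiction. -/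
theorem pressing (hK : KOK l K) (Z : Set K) (r : K → K) (hr : ∀ α ∈ Z, r α < α)
    (hf : ∀ γ, #{α : K // α ∈ Z ∧ r α = γ} ≤ l) : ¬ IsStationary Z := by
  intro hst
  have h1 : ∀ γ : K, ∃ δ, ∀ α, α ∈ Z → r α = γ → α < δ := by
    intro γ
    obtain ⟨δ, hδ⟩ := bdd_small hK {α : K | α ∈ Z ∧ r α = γ} (hf γ)
    exact ⟨δ, fun α h1 h2 => hδ α ⟨h1, h2⟩⟩
  choose G hG using h1
  obtain ⟨α, hα1, hα2⟩ := hst (club_closure hK G)
  have h2 := hα2 (r α) (hr α hα1)
  exact absurd (hG (r α) α hα1 rfl) (not_lt.2 h2)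

end MP8da
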