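import Pool.Agent.Lib_MP_8da2c8.ClubA

/-!
STEP ClubB.
-/

namespace MP8da

open Cardinal Set

universe u
variable {l : Cardinal.{u}} {K : Type u} [LinearOrder K] [WellFoundedLT K]

/-- `C0 l K = {α | (∃ γ, γ < α) ∧ ∀ γ < α, l ≤ #(Ico γ α)}` is a club.
Proof.  Closed: `t ⊆ C0` nonempty with least upper bound `δ`; some `δ' ∈ t` has an element below it,
which is below `δ`; for `γ < δ` there is `δ' ∈ t` with `γ < δ'`, and `Ico γ δ' ⊆ Ico γ δ`.
Cofinal: for every `γ` there is `G γ` with `l ≤ #(Ico γ (G γ))`: the set `Ici γ` has size `≥ l`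
(its complement `Iio γ` has size `≤ l`, and `#K = succ l`), so it has a subset `X` of size `l`
(`Cardinal.le_mk_iff_exists_subset`), and `X ⊆ Ico γ δ` for a strict upper bound `δ` of `X`
(`bdd_small`).  Given `a`, take by `club_closure` a closure point `δ` of `G` above a strict upper
bound of `{a}`; if `γ < δ` then `G γ ≤ δ`, so `Ico γ (G γ) ⊆ Ico γ δ`. -/
theorem club_C0 (hK : KOK l K) : IsClub (C0 l K) := by
  constructor
  · intro t ht hne _ δ hδ
    obtain ⟨δ', hδ'⟩ := hne
    refine ⟨?_, ?_⟩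
    · obtain ⟨γ, hγ⟩ := (ht hδ').1
      exact ⟨γ, lt_of_lt_of_le hγ (hδ.1 hδ')⟩
    · intro γ hγ
      obtain ⟨δ1, h1, h2⟩ := (lt_isLUB_iff hδ).1 hγ
      exact ((ht h1).2 γ h2).trans (mk_le_mk_of_subset (Ico_subset_Ico_right (hδ.1 h1)))
  · intro a
    have hG : ∀ γ : K, ∃ δ, l ≤ #(Ico γ δ) := by
      intro γ
      have h1 : l ≤ #(Ici γ) := by
        by_contra hlt
        push Not at hlt
        have h2 : #K ≤ l := by
          calc #K = #(univ : Set K) := mk_univ.symm
            _ ≤ #(Iio γ ∪ Ici γ : Set K) := mk_le_mk_of_subset (by intro x _; exact (lt_or_ge x γ))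
            _ ≤ #(Iio γ) + #(Ici γ) := mk_union_le _ _
            _ ≤ l + l := add_le_add (hK.init γ) hlt.le
            _ = l := add_eq_self hK.inf
        rw [hK.card] at h2
        exact absurd h2 (not_le.2 (Order.lt_succ l))
      obtain ⟨X, hX, hX'⟩ := Cardinal.le_mk_iff_exists_subset.1 h1
      obtain ⟨δ, hδ⟩ := bdd_small hK X hX'.le
      refine ⟨δ, ?_⟩
      rw [← hX']
      exact mk_le_mk_of_subset (fun x hx => ⟨hX hx, hδ x hx⟩)
    choose G hG using hG
    obtain ⟨b, hb⟩ := bdd_small hK {a} (by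
      rw [mk_singleton]
      exact one_le_aleph0.trans hK.inf)
    obtain ⟨δ, hδ, hbδ⟩ := (club_closure hK G).isCofinal b
    refine ⟨δ, ⟨⟨a, lt_of_lt_of_le (hb a rfl) hbδ⟩, ?_⟩, (hb a rfl).le.trans hbδ⟩
    intro γ hγ
    exact (hG γ).trans (mk_le_mk_of_subset (Ico_subset_Ico_right (hδ γ hγ)))

/-- An injective regressive function on a nonstationary subset of `C0`.
Proof.  Write `X` for `Df D E`.  There is a club `C` disjoint from `X` (`not_isStationary_iff`).  For
`α ∈ X` there is `low α < α` with: (a) `∀ c ∈ C, c < α → c ≤ low α`, and (b) `low α ∈ C` or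
(`C ∩ Iio α = ∅` and `low α` is the least element of `K`): if `C ∩ Iio α` is empty take the least
element (it is `< α` as `∃ γ, γ < α`); otherwise take the least upper bound `s` of `C ∩ Iio α`; it is `≤ α`, it is
in `C` as `C` is closed under suprema, and `s ≠ α` as `α ∉ C`.
If `α, α' ∈ X` and `low α < low α'` then `α ≤ low α'`: by (b) `low α' ∈ C`
(the least element is not above anything); if `low α' < α` then (a) gives `low α' ≤ low α`, contradiction.
For fixed `γ` the set `X γ = {α ∈ X | low α = γ}` has size `≤ l`: take `δ > γ` (`bdd_small`) and `c ∈ C`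
with `δ ≤ c`; every `α ∈ X γ` is `≤ c` by (a).  If `X γ` is nonempty, let `μ γ` be the least `δ`
with `l ≤ #(Ico γ δ)`; then `μ γ ≤ α` for every `α ∈ X γ` because `X ⊆ C0`.  As
`#(X γ) ≤ l ≤ #(Ico γ (μ γ))` there is an injection `j γ` of `X γ` into `Ico γ (μ γ)`.  Put
`β α = j (low α) α ∈ Ico (low α) (μ (low α))` for `α ∈ X`, so `low α ≤ β α < μ (low α) ≤ α`.
Injectivity: if `β α = β α'` with `low α < low α'` then `β α < α ≤ low α' ≤ β α'`, contradiction; if
`low α = low α'` use that `j` is injective. -/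
theorem exists_reg (hK : KOK l K) (D E : Set K) (hDE : Df D E ⊆ C0 l K)
    (hns : ¬ IsStationary (Df D E)) : ∃ β, Reg β D E := by
  classical
  obtain ⟨C, hC, hdis⟩ := not_isStationary_iff.1 hns
  have hlow : ∀ α ∈ Df D E, ∃ lo, lo < α ∧ (∀ c ∈ C, c < α → c ≤ lo) ∧ (lo ∈ C ∨ ∀ x, lo ≤ x) := by
    intro α hα
    by_cases hne : (C ∩ Iio α).Nonempty
    · have hub : (upperBounds (C ∩ Iio α)).Nonempty := ⟨α, fun x hx => (mem_Iio.1 hx.2).le⟩
      have hlub : IsLUB (C ∩ Iio α)
          (WellFounded.min (wellFounded_lt (α := K)) (upperBounds (C ∩ Iio α)) hub) := by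
        refine ⟨WellFounded.min_mem _ _ _, fun x hx => ?_⟩
        exact not_lt.1 (WellFounded.not_lt_min (wellFounded_lt (α := K)) _ hx)
      set s := WellFounded.min (wellFounded_lt (α := K)) (upperBounds (C ∩ Iio α)) hub with hs
      have hsC : s ∈ C := hC.isLUB_mem inter_subset_left hne hlub
      have hle : s ≤ α := hlub.2 (fun x hx => (mem_Iio.1 hx.2).le)
      have hneq : s ≠ α := by
        intro h
        exact (disjoint_left.1 hdis) hα (h ▸ hsC)
      exact ⟨s, lt_of_le_of_ne hle hneq, fun c hc hcα => hlub.1 ⟨hc, hcα⟩, Or.inl hsC⟩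
    · obtain ⟨γ, hγ⟩ := (hDE hα).1
      have hmin : ∀ x : K, WellFounded.min (wellFounded_lt (α := K)) univ ⟨α, mem_univ α⟩ ≤ x :=
        fun x => not_lt.1 (WellFounded.not_lt_min (wellFounded_lt (α := K)) _ (mem_univ x))
      refine ⟨_, lt_of_le_of_lt (hmin γ) hγ, ?_, Or.inr hmin⟩
      intro c hc hcα
      exact absurd ⟨c, hc, hcα⟩ hne
  choose! low hlow1 hlow2 hlow3 using hlow
  have hcmp : ∀ α ∈ Df D E, ∀ α' ∈ Df D E, low α < low α' → α ≤ low α' := by
    intro α hα α' hα' h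
    rcases hlow3 α' hα' with h1 | h1
    · by_contra h2
      exact absurd (hlow2 α hα _ h1 (not_le.1 h2)) (not_le.2 h)
    · exact absurd (h1 (low α)) (not_le.2 h)
  have hfib : ∀ γ : K, #{α : K // α ∈ Df D E ∧ low α = γ} ≤ l := by
    intro γ
    obtain ⟨b, hb⟩ := bdd_small hK {γ} (by
      rw [mk_singleton]
      exact one_le_aleph0.trans hK.inf)
    obtain ⟨c, hc, hbc⟩ := hC.isCofinal b
    obtain ⟨c', hc'⟩ := bdd_small hK {c} (by
      rw [mk_singleton]
      exact one_le_aleph0.trans hK.inf)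
    refine (mk_le_mk_of_subset (t := Iio c') ?_).trans (hK.init c')
    rintro α ⟨hα, h1⟩
    refine lt_of_le_of_lt ?_ (hc' c rfl)
    by_contra h2
    have h3 := hlow2 α hα c hc (not_le.1 h2)
    rw [h1] at h3
    exact absurd (lt_of_lt_of_le (hb γ rfl) hbc) (not_lt.2 h3)
  have hf : ∀ γ : K, ∃ f : {α : K // α ∈ Df D E ∧ low α = γ} → K, Function.Injective f ∧
      ∀ α, γ ≤ f α ∧ f α < α.1 := by
    intro γ
    by_cases hne : Nonempty {α : K // α ∈ Df D E ∧ low α = γ}
    · obtain ⟨α0, hα0, hα0'⟩ := hne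
      have hS : ({δ : K | l ≤ #(Ico γ δ)}).Nonempty := by
        refine ⟨α0, (hDE hα0).2 γ ?_⟩
        rw [← hα0']
        exact hlow1 α0 hα0
      set μ := WellFounded.min (wellFounded_lt (α := K)) {δ : K | l ≤ #(Ico γ δ)} hS with hμ
      have hμ1 : l ≤ #(Ico γ μ) := WellFounded.min_mem (wellFounded_lt (α := K)) _ hS
      obtain ⟨j⟩ := (Cardinal.le_def _ _).1 ((hfib γ).trans hμ1)
      refine ⟨fun α => (j α : K), ?_, ?_⟩
      · intro α α' h
        exact j.injective (Subtype.ext h)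
      · intro α
        refine ⟨(j α).2.1, lt_of_lt_of_le (j α).2.2 ?_⟩
        refine not_lt.1 (WellFounded.not_lt_min (wellFounded_lt (α := K)) _ ?_)
        refine (hDE α.2.1).2 γ ?_
        have h1 := hlow1 α.1 α.2.1
        rw [α.2.2] at h1
        exact h1
    · refine ⟨fun α => α.1, fun α => absurd ⟨α⟩ hne, fun α => absurd ⟨α⟩ hne⟩
  choose f hf1 hf2 using hf
  refine ⟨fun α => if h : α ∈ Df D E then f (low α) ⟨α, h, rfl⟩ else α, ?_, ?_⟩
  · intro α hα
    simp only [dif_pos hα]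
    exact (hf2 (low α) ⟨α, hα, rfl⟩).2
  · intro α hα α' hα' h
    simp only [dif_pos hα, dif_pos hα'] at h
    have key : ∀ α (hα : α ∈ Df D E) α' (hα' : α' ∈ Df D E),
        f (low α) ⟨α, hα, rfl⟩ = f (low α') ⟨α', hα', rfl⟩ → ¬ low α < low α' := by
      intro α hα α' hα' h hlt
      have h1 := (hf2 (low α) ⟨α, hα, rfl⟩).2
      have h2 := (hf2 (low α') ⟨α', hα', rfl⟩).1
      rw [h] at h1
      exact absurd (lt_of_le_of_lt ((hcmp α hα α' hα' hlt).trans h2) h1) (lt_irrefl α)
    have heq : low α = low α' := by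
      rcases lt_trichotomy (low α) (low α') with h1 | h1 | h1
      · exact absurd h1 (key α hα α' hα' h)
      · exact h1
      · exact absurd h1 (key α' hα' α hα h.symm)
    have hgen : ∀ γ γ' (e : γ = γ') (x : {α : K // α ∈ Df D E ∧ low α = γ})
        (x' : {α : K // α ∈ Df D E ∧ low α = γ'}), f γ x = f γ' x' → x.1 = x'.1 := by
      intro γ γ' e
      subst e
      intro x x' hx
      rw [hf1 γ hx]
    exact hgen _ _ heq _ _ h

end MP8da
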