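import Pool.Agent.Lib_MP_8da2c8.ClubB

/-!
STEP ClubC.
-/

namespace MP8da

open Cardinal Set

universe u
variable {l : Cardinal.{u}} {K : Type u} [LinearOrder K] [WellFoundedLT K]

/-- Proof.  `Df (DD l S η) (DD l S ξ) = {α | α ∈ S ∧ η α ≠ ξ α} ∩ C0 l K`.  If the intersection of a
set `X` with the club `C0` is nonstationary then so is `X`: a club `C` disjoint from `X ∩ C0` gives
the club `C ∩ C0` (`IsClub.inter`, using `cofK` and `club_C0`) disjoint from `X`. -/
theorem eqNS_iff (hK : KOK l K) (S : Set K) (η ξ : K → Bool) :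
    EqNS S η ξ ↔ ¬ IsStationary (Df (DD l S η) (DD l S ξ)) := by
  have h1 : Df (DD l S η) (DD l S ξ) = {α | α ∈ S ∧ η α ≠ ξ α} ∩ C0 l K := by
    ext α
    simp only [Df, DD, mem_ofPred_eq, mem_inter_iff]
    cases η α <;> cases ξ α <;> simp
  unfold EqNS
  rw [not_iff_not, h1]
  constructor
  · intro h C hC
    obtain ⟨x, hx1, hx2, hx3⟩ := h ((club_C0 hK).inter (cofK hK) hC)
    exact ⟨x, ⟨hx1, hx2⟩, hx3⟩
  · intro h
    exact h.mono inter_subset_left

theorem df_subset (S : Set K) (η ξ : K → Bool) : Df (DD l S η) (DD l S ξ) ⊆ C0 l K := by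
  intro α hα
  simp only [Df, DD, mem_ofPred_eq] at hα
  by_contra h
  exact hα (iff_of_false (fun h' => h h'.2.1) (fun h' => h h'.2.1))

/-- Proof.  `Df D E = (D \ E) ∪ (E \ D)` and `isStationary_union_iff` with `cofK`. -/
theorem stat_cases (hK : KOK l K) (D E : Set K) (h : IsStationary (Df D E)) :
    IsStationary (D \ E) ∨ IsStationary (E \ D) := by
  have h1 : Df D E = (D \ E) ∪ (E \ D) := by
    ext α
    simp only [Df, mem_ofPred_eq, mem_union, mem_sdiff]
    tauto
  rw [h1] at h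
  exact (isStationary_union_iff (cofK hK)).1 h

end MP8da
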