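import Pool.Agent.Lib_MP_8da2c8.Stmt

/-!
The construction for MP_8da2c8_lc: definitions.

Overview.  `K` is a well-order of type `κ = λ⁺ = 2^λ` (`l` is `λ`).  From a set `D ⊆ K` we build
a set `Valid D` of infinite branches `ℕ → Sy K`, where the symbols are

* `m a v`  (main): `a : K` is a label, `v : US K` is either `x α` (allowed only if `α ∈ D`) or
  `y g β i` (always allowed; there are only countably many with a given `β`);
* `g ρ i`  (gadget of rank `ρ`): after `m a v` only rank `ρ = a`, after `g ρ i` only ranks `< ρ`;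
* `t i` after a gadget symbol, and then only the countably many `z n`.

A branch with only main symbols is allowed only if it is *good* (`Gd D b`), i.e. obtained from a
*pure diagonal* (the symbol at `k` is `x α_k` with `α_k ∈ D`, and the label at `k+1` is `α_k`) by
finitely many *links*.  A link between `D` and `E` exists for every injective regressive `β` on the
symmetric difference of `D` and `E`.
-/

namespace MP8da

open Cardinal Set FirstOrder
open scoped Classical

universe u

/-! ### The order -/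

/-- what we use about `K` (of order type `λ⁺ = 2^λ`) -/
structure KOK (l : Cardinal.{u}) (K : Type u) [LinearOrder K] : Prop where
  inf : ℵ₀ ≤ l
  card : #K = Order.succ l
  init : ∀ a : K, #(Iio a) ≤ l
  gch : (2 : Cardinal.{u}) ^ l = Order.succ l

/-- the points all of whose final segments have size at least `λ` (they form a club) -/
def C0 (l : Cardinal.{u}) (K : Type u) [LinearOrder K] : Set K :=
  {α | (∃ γ, γ < α) ∧ ∀ γ < α, l ≤ #(Ico γ α)}

/-- the set coded by `η`, restricted to `S` and to `C0` -/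
def DD (l : Cardinal.{u}) {K : Type u} [LinearOrder K] (S : Set K) (η : K → Bool) : Set K :=
  {α | α ∈ S ∧ α ∈ C0 l K ∧ η α = true}

/-- symmetric difference -/
def Df {K : Type u} (D E : Set K) : Set K := {α | ¬ (α ∈ D ↔ α ∈ E)}

/-- `β` is regressive and injective on the symmetric difference of `D` and `E` -/
def Reg {K : Type u} [LinearOrder K] (β : K → K) (D E : Set K) : Prop :=
  (∀ α ∈ Df D E, β α < α) ∧ Set.InjOn β (Df D E)

/-! ### Symbols and steps -/

inductive US (K : Type u) : Type u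
  | x (α : K) : US K
  | y (g : Finset ℕ) (β : K) (i : ℕ) : US K

inductive Sy (K : Type u) : Type u
  | m (a : K) (v : US K) : Sy K
  | g (ρ i : K) : Sy K
  | t (i : K) : Sy K
  | z (n : ℕ) : Sy K

section
variable {K : Type u} [LinearOrder K] [Inhabited K]

/-- which main symbols are allowed for `D` -/
def uok (D : Set K) : US K → Prop
  | .x α => α ∈ D
  | .y _ _ _ => True

/-- which symbol may follow which -/
def Step (D : Set K) : Sy K → Sy K → Prop
  | .m _ _, .m _ v => uok D v
  | .m a _, .g ρ _ => ρ = a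
  | .g ρ _, .g σ _ => σ < ρ
  | .g _ _, .t _ => True
  | .t _, .z _ => True
  | .z _, .z _ => True
  | _, _ => False

/-- the virtual symbol before the first one -/
def start (K : Type u) [Inhabited K] : Sy K := .m default (.y ∅ default 0)

/-- the symbol before position `n` -/
def prev (b : ℕ → Sy K) : ℕ → Sy K
  | 0 => start K
  | n + 1 => b n

/-- a canonical continuation -/
def nxt : Sy K → Sy K
  | .m a _ => .g a default
  | .g _ _ => .t default
  | .t _ => .z 0
  | .z _ => .z 0

def cont (s : Sy K) : ℕ → Sy K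
  | 0 => s
  | n + 1 => nxt (cont s n)

/-- `b` up to `n`, then `s`, then the canonical continuation -/
def ext (b : ℕ → Sy K) (n : ℕ) (s : Sy K) : ℕ → Sy K :=
  fun i => if i < n then b i else cont s (i - n)

/-- agreement below `n` -/
def Agr {X : Type*} (n : ℕ) (b c : ℕ → X) : Prop := ∀ i < n, b i = c i

/-- main symbols -/
def IsM : Sy K → Prop
  | .m _ _ => True
  | _ => False

/-! ### Links -/

/-- at `j` the branch `b` has `x α` and the label at `j+1` is `α` -/
def hit (b : ℕ → Sy K) (j : ℕ) : Prop := ∃ a α v, b j = .m a (.x α) ∧ b (j + 1) = .m α v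

/-- the hits below `k` -/
noncomputable def H (b : ℕ → Sy K) (k : ℕ) : Finset ℕ := (Finset.range k).filter (hit b)

/-- the link on the symbols `x α`, `y g β i`; `h` and `h'` are the sets of hits of the source and
of the target node -/
inductive Lk (β : K → K) (D E : Set K) (h h' : Finset ℕ) : US K → US K → Prop
  | xx (α : K) : α ∈ D → α ∈ E → Lk β D E h h' (.x α) (.x α)
  | out0 (α : K) : α ∈ D → α ∉ E → Lk β D E h h' (.x α) (.y h (β α) 0)
  | outS (α : K) (i : ℕ) : α ∈ D → α ∉ E → Lk β D E h h' (.y h (β α) i) (.y h (β α) (i + 1))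
  | in0 (α : K) : α ∉ D → α ∈ E → Lk β D E h h' (.y h' (β α) 0) (.x α)
  | inS (α : K) (i : ℕ) : α ∉ D → α ∈ E → Lk β D E h h' (.y h' (β α) (i + 1)) (.y h' (β α) i)
  | id (g : Finset ℕ) (γ : K) (i : ℕ) : (∀ α, α ∈ D → α ∉ E → ¬ (g = h ∧ γ = β α)) →
      (∀ α, α ∉ D → α ∈ E → ¬ (g = h' ∧ γ = β α)) → Lk β D E h h' (.y g γ i) (.y g γ i)

/-- the link on symbols: labels and kinds are kept -/
inductive LkS (β : K → K) (D E : Set K) (h h' : Finset ℕ) : Sy K → Sy K → Prop
  | m (a : K) (v v' : US K) : Lk β D E h h' v v' → LkS β D E h h' (.m a v) (.m a v')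
  | g (ρ i : K) : LkS β D E h h' (.g ρ i) (.g ρ i)
  | t (i : K) : LkS β D E h h' (.t i) (.t i)
  | z (n : ℕ) : LkS β D E h h' (.z n) (.z n)

/-- the link between branches -/
def Link (β : K → K) (D E : Set K) (b c : ℕ → Sy K) : Prop :=
  ∀ k, LkS β D E (H b k) (H c k) (b k) (c k)

/-- good branches -/
inductive Gd : Set K → (ℕ → Sy K) → Prop
  | base (D : Set K) (b : ℕ → Sy K) : (∀ k, hit b k) → (∀ k a α, b k = .m a (.x α) → α ∈ D) →
      Gd D b
  | link (D E : Set K) (β : K → K) (b c : ℕ → Sy K) : Gd D b → Reg β D E → Link β D E b c →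
      Gd E c

/-- position `k` of `c` is a hit, or carries `y g β i` with `β` below the next label -/
def OKat (c : ℕ → Sy K) (k : ℕ) : Prop :=
  hit c k ∨ ∃ a g β i α v, c k = .m a (.y g β i) ∧ c (k + 1) = .m α v ∧ β < α

/-- the branches of the structure attached to `D` -/
def Valid (D : Set K) (b : ℕ → Sy K) : Prop :=
  (∀ n, Step D (prev b n) (b n)) ∧ ((∀ n, IsM (b n)) → Gd D b)

/-! ### The structure -/

/-- a fixed branch which is always valid -/
def d0 (K : Type u) [LinearOrder K] [Inhabited K] : ℕ → Sy K := cont (start K)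

/-- `b` if it is valid, the fixed branch otherwise -/
noncomputable def br (D : Set K) (b : ℕ → Sy K) : ℕ → Sy K := if Valid D b then b else d0 K

/-- the finite coordinates -/
abbrev W (p : ℕ → ℕ) : Type := ∀ n, Fin (p n + 1)

/-- the universe: a branch of symbols, finite coordinates, and a copy number -/
abbrev Q (K : Type u) (p : ℕ → ℕ) : Type u := (ℕ → Sy K) × W p × K

/-- how many elements of `I` are below `n` -/
noncomputable def cnt (I : Set ℕ) (n : ℕ) : ℕ := Nat.count (· ∈ I) n

/-- agreement of the coordinates below `n`; the coordinate `n` is a symbol if `n ∈ I` and a finite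
coordinate always (we shall have `p n = 0` if `n ∈ I`) -/
def EE (I : Set ℕ) (p : ℕ → ℕ) (D : Set K) (n : ℕ) (q q' : Q K p) : Prop :=
  Agr (cnt I n) (br D q.1) (br D q'.1) ∧ ∀ j < n, q.2.1 j = q'.2.1 j

/-- isomorphism of the structures attached to `D` and `D'` -/
def RIso (I : Set ℕ) (p : ℕ → ℕ) (D D' : Set K) : Prop :=
  ∃ g : Q K p ≃ Q K p, ∀ n q q', EE I p D n q q' ↔ EE I p D' n (g q) (g q')

/-- the `k`-th element of `I` -/
noncomputable def nI (I : Set ℕ) (k : ℕ) : ℕ := Nat.nth (· ∈ I) k

/-- agreement of the first `k` symbols and of the finite coordinates below `nI I k` -/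
def RR (I : Set ℕ) (p : ℕ → ℕ) (D : Set K) (k : ℕ) (q q' : Q K p) : Prop :=
  Agr k (br D q.1) (br D q'.1) ∧ ∀ j < nI I k, q.2.1 j = q'.2.1 j

/-- the reduction: `code η` codes the structure attached to `DD l S η` -/
noncomputable def code (l : Cardinal.{u}) (S : Set K) (I : Set ℕ) (p : ℕ → ℕ) (e : K ≃ Q K p)
    (π : ℕ × K × K ≃ K) (η : K → Bool) : K → Bool :=
  fun k => decide (EE I p (DD l S η) ((π.symm k).1 + 1) (e (π.symm k).2.1) (e (π.symm k).2.2))

end

/-! ### Rigidity invariants (for any sequence of relations) -/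

/-- the class `R k` of `q` has uncountably many subclasses `R (k+1)` -/
def Big {X : Type*} (R : ℕ → X → X → Prop) (k : ℕ) (q : X) : Prop :=
  ∀ C : Set X, C.Countable → ∃ q', R k q q' ∧ ∀ c ∈ C, ¬ R (k + 1) q' c

/-- the recursion step for `Rk` -/
def RkStep {K : Type u} [LinearOrder K] {X : Type*} (R : ℕ → X → X → Prop)
    (ρ : K) (IH : ∀ σ, σ < ρ → ℕ → X → Prop) : ℕ → X → Prop := fun k q =>
  Big R k q ∧ (∀ σ, ∀ h : σ < ρ, ∃ q', R k q q' ∧ IH σ h (k + 1) q') ∧
    ∀ q', R k q q' → Big R (k + 1) q' → ∃ σ, ∃ h : σ < ρ, IH σ h (k + 1) q'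

/-- rank exactly `ρ` (recursion on `ρ`) -/
noncomputable def Rk {K : Type u} [LinearOrder K] [WellFoundedLT K] {X : Type*}
    (R : ℕ → X → X → Prop) (ρ : K) : ℕ → X → Prop :=
  (wellFounded_lt (α := K)).fix (C := fun _ => ℕ → X → Prop) (RkStep R) ρ

theorem rk_iff {K : Type u} [LinearOrder K] [WellFoundedLT K] {X : Type*}
    (R : ℕ → X → X → Prop) (ρ : K) (k : ℕ) (q : X) :
    Rk R ρ k q ↔ Big R k q ∧ (∀ σ < ρ, ∃ q', R k q q' ∧ Rk R σ (k + 1) q') ∧
      ∀ q', R k q q' → Big R (k + 1) q' → ∃ σ < ρ, Rk R σ (k + 1) q' := by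
  have h : Rk R ρ = RkStep R ρ (fun σ _ => Rk R σ) := by
    unfold Rk
    rw [WellFounded.fix_eq]
  rw [h]
  unfold RkStep
  simp only [exists_prop]

/-! ### Elementary equivalence -/

/-- nested equivalence relations, `R 0` trivial, all classes infinite -/
structure NS {X : Type*} (R : ℕ → X → X → Prop) : Prop where
  refl : ∀ n x, R n x x
  symm : ∀ n x y, R n x y → R n y x
  trans : ∀ n x y z, R n x y → R n y z → R n x z
  mono : ∀ n x y, R (n + 1) x y → R n x y
  zero : ∀ x y, R 0 x y
  inf : ∀ n x (F : Finset X), ∃ x', x' ∉ F ∧ R n x x'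

/-- the class `R n` of `x` contains `r` pairwise `R (n+1)`-inequivalent elements -/
def Many {X : Type*} (R : ℕ → X → X → Prop) (n : ℕ) (x : X) (r : ℕ) : Prop :=
  ∃ F : Finset X, F.card = r ∧ (∀ y ∈ F, R n x y) ∧ ∀ y ∈ F, ∀ y' ∈ F, R (n + 1) y y' → y = y'

/-- `v` and `w` have the same pattern up to `N` -/
def Pat {X Y : Type*} (R : ℕ → X → X → Prop) (R' : ℕ → Y → Y → Prop) (N : ℕ) {k : ℕ}
    (v : Fin k → X) (w : Fin k → Y) : Prop :=
  ∀ i j, (v i = v j ↔ w i = w j) ∧ ∀ n ≤ N, (R n (v i) (v j) ↔ R' n (w i) (w j))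

end MP8da
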