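import Pool.Agent.Lib_MP_8da2c8.Defs

/-!
STEP ElemA: the extension property of patterns.
-/

namespace MP8da

open Set
open scoped Classical

variable {X Y : Type*}

theorem NS.mono_le {R : ℕ → X → X → Prop} (hR : NS R) {m n : ℕ} (hmn : m ≤ n) {x y : X}
    (h : R n x y) : R m x y := by
  induction n, hmn using Nat.le_induction with
  | base => exact h
  | succ n _ ih => exact ih (hR.mono n x y h)

/-- Proof.  If `a = v i` for some `i` take `w i`.  If `k = 0` take any `b : Y`.  Otherwise `a ≠ v i` for all `i`, `k > 0`,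
and let `n ≤ N` be maximal such that `R n a (v i)` for some `i` (`n = 0` is possible by `zero`); fix such an `i`.
If `n = N`: by `inf` there is `b` with `R' N (w i) b` and `b ≠ w j` for all `j`.
If `n < N`: `¬ R (n+1) a (v j)` for all `j`.  Let `J` be a maximal set of indices `j` with `R n (v i) (v j)` which are pairwise
`R (n+1)`-inequivalent.  Then `{a} ∪ {v j | j ∈ J}` shows `Many R n (v i) (#J + 1)`, so `Many R' n (w i) (#J + 1)`.
By the pigeonhole principle one of the `#J + 1` elements, `b`, is `R' (n+1)`-inequivalent to all `w j`, `j ∈ J`; then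
to all `w j`: if `R' (n+1) b (w j)` then `R' n (w i) (w j)`, so `R n (v i) (v j)`, so by maximality
`R (n+1) (v j) (v j')` for some `j' ∈ J`, so `R' (n+1) (w j) (w j')` (as `n + 1 ≤ N`), so `R' (n+1) b (w j')`, contradiction.
In both cases `R' n (w i) b` and `¬ R' (n+1) b (w j)` for all `j` if `n < N`, and `b ≠ w j` for all `j`.  For `m ≤ n`:
`R' m b (w j) ↔ R' m (w i) (w j) ↔ R m (v i) (v j) ↔ R m a (v j)`; for `n < m ≤ N` both sides are false. -/
theorem pat_ext [Nonempty Y] {R : ℕ → X → X → Prop} {R' : ℕ → Y → Y → Prop} (hR : NS R)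
    (hR' : NS R') (hM : ∀ n x y r, Many R n x r → Many R' n y r) (N : ℕ) {k : ℕ}
    (v : Fin k → X) (w : Fin k → Y) (h : Pat R R' N v w) (a : X) :
    ∃ b : Y, Pat R R' N (Fin.snoc v a : Fin (k + 1) → X) (Fin.snoc w b : Fin (k + 1) → Y) := by
  suffices hs : ∃ b : Y, ∀ j, (a = v j ↔ b = w j) ∧ ∀ n ≤ N, (R n a (v j) ↔ R' n b (w j)) by
    obtain ⟨b, hb⟩ := hs
    refine ⟨b, fun i j => ?_⟩
    refine Fin.lastCases ?_ (fun i => ?_) i
    · refine Fin.lastCases ?_ (fun j => ?_) j
      · exact ⟨by simp [Fin.snoc_last], fun n _ => by simp [Fin.snoc_last, hR.refl, hR'.refl]⟩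
      · simp only [Fin.snoc_last, Fin.snoc_castSucc]
        exact hb j
    · refine Fin.lastCases ?_ (fun j => ?_) j
      · simp only [Fin.snoc_last, Fin.snoc_castSucc]
        refine ⟨⟨fun e => ((hb i).1.1 e.symm).symm, fun e => ((hb i).1.2 e.symm).symm⟩,
          fun n hn => ⟨fun e => ?_, fun e => ?_⟩⟩
        · exact hR'.symm _ _ _ (((hb i).2 n hn).1 (hR.symm _ _ _ e))
        · exact hR.symm _ _ _ (((hb i).2 n hn).2 (hR'.symm _ _ _ e))
      · simp only [Fin.snoc_castSucc]
        exact h i j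
  by_cases hav : ∃ i, a = v i
  · obtain ⟨i, rfl⟩ := hav
    exact ⟨w i, fun j => h i j⟩
  have hav' : ∀ i, a ≠ v i := fun i e => hav ⟨i, e⟩
  rcases Nat.eq_zero_or_pos k with hk | hk
  · subst hk
    exact ⟨Classical.arbitrary Y, fun j => j.elim0⟩
  obtain ⟨n, hnN, ⟨i, hi⟩, hmax⟩ : ∃ n ≤ N, (∃ i, R n a (v i)) ∧
      ∀ m, n < m → m ≤ N → ∀ j, ¬ R m a (v j) := by
    refine ⟨Nat.findGreatest (fun n => ∃ i, R n a (v i)) N, Nat.findGreatest_le _, ?_, ?_⟩
    · exact Nat.findGreatest_spec (P := fun n => ∃ i, R n a (v i)) (Nat.zero_le N)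
        ⟨⟨0, hk⟩, hR.zero _ _⟩
    · intro m hm hmN j hj
      exact Nat.findGreatest_is_greatest hm hmN ⟨j, hj⟩
  have hia : R n (v i) a := hR.symm _ _ _ hi
  obtain ⟨b, hb1, hb2, hb3⟩ : ∃ b : Y, R' n (w i) b ∧ (∀ j, b ≠ w j) ∧
      (n < N → ∀ j, ¬ R' (n + 1) b (w j)) := by
    rcases Nat.lt_or_ge n N with hn | hn
    · obtain ⟨J, hJ⟩ : ∃ J : Finset (Fin k), J = Finset.univ.filter (fun j =>
        R n (v i) (v j) ∧ ∀ j' < j, ¬ R (n + 1) (v j') (v j)) := ⟨_, rfl⟩
      have hJmem : ∀ j, j ∈ J ↔ R n (v i) (v j) ∧ ∀ j' < j, ¬ R (n + 1) (v j') (v j) := by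
        intro j
        rw [hJ]
        simp
      have hJ1 : ∀ j ∈ J, ∀ j' ∈ J, R (n + 1) (v j) (v j') → j = j' := by
        intro j hj j' hj' hjj
        rcases lt_trichotomy j j' with hlt | heq | hlt
        · exact absurd hjj (((hJmem j').1 hj').2 j hlt)
        · exact heq
        · exact absurd (hR.symm _ _ _ hjj) (((hJmem j).1 hj).2 j' hlt)
      have hJ2 : ∀ j, R n (v i) (v j) → ∃ j' ∈ J, R (n + 1) (v j') (v j) := by
        intro j hj
        have hne : (Finset.univ.filter (fun j' => R (n + 1) (v j') (v j))).Nonempty :=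
          ⟨j, by simp [hR.refl]⟩
        obtain ⟨j', hj'1, hj'2⟩ := Finset.exists_min_image _ (fun j : Fin k => j) hne
        have hj'3 : R (n + 1) (v j') (v j) := by simpa using hj'1
        refine ⟨j', (hJmem j').2 ⟨?_, ?_⟩, hj'3⟩
        · exact hR.trans _ _ _ _ hj (hR.symm _ _ _ (hR.mono _ _ _ hj'3))
        · intro j'' hlt hc
          have h1 := hj'2 j'' (by
            simp only [Finset.mem_filter, Finset.mem_univ, true_and]
            exact hR.trans _ _ _ _ hc hj'3)
          exact absurd hlt (not_lt.2 h1)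
      have hmany : Many R n (v i) (J.card + 1) := by
        refine ⟨insert a (J.image v), ?_, ?_, ?_⟩
        · rw [Finset.card_insert_of_notMem, Finset.card_image_of_injOn]
          · intro j hj j' hj' hjj
            refine hJ1 j hj j' hj' ?_
            have hjj' : v j = v j' := hjj
            rw [hjj']
            exact hR.refl _ _
          · intro hm
            obtain ⟨j, _, hj⟩ := Finset.mem_image.1 hm
            exact hav' j hj.symm
        · intro y hy
          rcases Finset.mem_insert.1 hy with rfl | hy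
          · exact hia
          · obtain ⟨j, hj, rfl⟩ := Finset.mem_image.1 hy
            exact ((hJmem j).1 hj).1
        · intro y hy y' hy' hyy
          rcases Finset.mem_insert.1 hy with rfl | hy
          · rcases Finset.mem_insert.1 hy' with rfl | hy'
            · rfl
            · obtain ⟨j, hj, rfl⟩ := Finset.mem_image.1 hy'
              exact absurd hyy (hmax (n + 1) (Nat.lt_succ_self n) hn j)
          · obtain ⟨j, hj, rfl⟩ := Finset.mem_image.1 hy
            rcases Finset.mem_insert.1 hy' with rfl | hy'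
            · exact absurd (hR.symm _ _ _ hyy) (hmax (n + 1) (Nat.lt_succ_self n) hn j)
            · obtain ⟨j', hj', rfl⟩ := Finset.mem_image.1 hy'
              rw [hJ1 j hj j' hj' hyy]
      obtain ⟨F, hF1, hF2, hF3⟩ := hM n (v i) (w i) _ hmany
      obtain ⟨b, hbF, hbJ⟩ : ∃ b ∈ F, ∀ j ∈ J, ¬ R' (n + 1) b (w j) := by
        by_contra hcon
        push Not at hcon
        choose g hg1 hg2 using hcon
        obtain ⟨y, hy, y', hy', hne, heq⟩ := Finset.exists_ne_map_eq_of_card_lt_of_maps_to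
          (s := F.attach) (t := J) (f := fun y => g y.1 y.2) (by
            rw [Finset.card_attach, hF1]
            exact Nat.lt_succ_self _) (fun y _ => hg1 y.1 y.2)
        apply hne
        have h1 := hg2 y.1 y.2
        have h2 := hg2 y'.1 y'.2
        have heq' : g y.1 y.2 = g y'.1 y'.2 := heq
        rw [heq'] at h1
        exact Subtype.ext (hF3 _ y.2 _ y'.2 (hR'.trans _ _ _ _ h1 (hR'.symm _ _ _ h2)))
      have hall : ∀ j, ¬ R' (n + 1) b (w j) := by
        intro j hj
        have h1 : R' n (w i) (w j) := hR'.trans _ _ _ _ (hF2 b hbF) (hR'.mono _ _ _ hj)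
        obtain ⟨j', hj', h2⟩ := hJ2 j (((h i j).2 n hnN).2 h1)
        have h3 : R' (n + 1) (w j') (w j) := ((h j' j).2 (n + 1) hn).1 h2
        exact hbJ j' hj' (hR'.trans _ _ _ _ hj (hR'.symm _ _ _ h3))
      refine ⟨b, hF2 b hbF, fun j e => hall j ?_, fun _ => hall⟩
      rw [e]
      exact hR'.refl _ _
    · obtain ⟨b, hb1, hb2⟩ := hR'.inf n (w i) (Finset.univ.image w)
      refine ⟨b, hb2, fun j e => hb1 ?_, fun hlt => absurd hlt (not_lt.2 hn)⟩
      rw [e]
      exact Finset.mem_image_of_mem _ (Finset.mem_univ j)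
  refine ⟨b, fun j => ⟨⟨fun e => absurd e (hav' j), fun e => absurd e (hb2 j)⟩, fun m hm => ?_⟩⟩
  rcases Nat.lt_or_ge n m with hnm | hnm
  · constructor
    · intro e
      exact absurd e (hmax m hnm hm j)
    · intro e
      exact absurd (hR'.mono_le hnm e) (hb3 (lt_of_lt_of_le hnm hm) j)
  · have h1 : R m (v i) a := hR.mono_le hnm hia
    have h2 : R' m (w i) b := hR'.mono_le hnm hb1
    have h3 := (h i j).2 m hm
    constructor
    · intro e
      exact hR'.trans _ _ _ _ (hR'.symm _ _ _ h2) (h3.1 (hR.trans _ _ _ _ h1 e))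
    · intro e
      exact hR.trans _ _ _ _ (hR.symm _ _ _ h1) (h3.2 (hR'.trans _ _ _ _ h2 e))

end MP8da
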