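import Pool.Agent.Lib_MP_8da2c8.ElemA

/-!
STEP ElemB: elementary equivalence.
-/

namespace MP8da

open Set FirstOrder
open scoped Classical

variable {X Y : Type*}

private theorem ElemB_term {k : ℕ} (t : LE.Term (Empty ⊕ Fin k)) :
    ∃ i : Fin k, t = FirstOrder.Language.Term.var (Sum.inr i) := by
  cases t with
  | var a =>
    rcases a with e | i
    · exact e.elim
    · exact ⟨i, rfl⟩
  | func f ts => exact Empty.elim f

private theorem ElemB_symm {R : ℕ → X → X → Prop} {R' : ℕ → Y → Y → Prop} {N : ℕ} {k : ℕ}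
    {v : Fin k → X} {w : Fin k → Y} (h : Pat R R' N v w) : Pat R' R N w v :=
  fun i j => ⟨(h i j).1.symm, fun n hn => ((h i j).2 n hn).symm⟩

private theorem ElemB_mono {R : ℕ → X → X → Prop} {R' : ℕ → Y → Y → Prop} {N N' : ℕ} {k : ℕ}
    {v : Fin k → X} {w : Fin k → Y} (hN : N' ≤ N) (h : Pat R R' N v w) : Pat R R' N' v w :=
  fun i j => ⟨(h i j).1, fun n hn => (h i j).2 n (hn.trans hN)⟩

/-- Proof: induction on `φ`.  Terms are variables (`LE` has no function symbols): free variables come from `Empty`, so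
a term in `LE.Term (Empty ⊕ Fin k)` is `Term.var (Sum.inr i)`, realized by `v i`.
falsum: `N = 0`.  equal: `N = 0`, first clause of `Pat`.  rel (`Rel.E n`): `N = n + 1`, second clause.  imp: the maximum of the two `N`'s (`Pat` for a
larger `N` gives `Pat` for a smaller one).  all: the same `N`, by `pat_ext` in both directions (`Pat` is symmetric). -/
theorem realize_iff [Nonempty X] [Nonempty Y] {R : ℕ → X → X → Prop} {R' : ℕ → Y → Y → Prop}
    (hR : NS R) (hR' : NS R') (hM : ∀ n x y r, Many R n x r ↔ Many R' n y r) {k : ℕ}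
    (φ : LE.BoundedFormula Empty k) : ∃ N, ∀ (v : Fin k → X) (w : Fin k → Y), Pat R R' N v w →
      (@FirstOrder.Language.BoundedFormula.Realize LE X (mkStr fun n => R (n + 1)) Empty k φ
          (fun e => e.elim) v ↔
        @FirstOrder.Language.BoundedFormula.Realize LE Y (mkStr fun n => R' (n + 1)) Empty k φ
          (fun e => e.elim) w) := by
  induction φ with
  | falsum => exact ⟨0, fun v w _ => Iff.rfl⟩
  | equal t₁ t₂ =>
    obtain ⟨i, rfl⟩ := ElemB_term t₁
    obtain ⟨j, rfl⟩ := ElemB_term t₂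
    exact ⟨0, fun v w h => (h i j).1⟩
  | rel r ts =>
    rcases r with ⟨n⟩
    obtain ⟨i, hi⟩ := ElemB_term (ts 0)
    obtain ⟨j, hj⟩ := ElemB_term (ts 1)
    refine ⟨n + 1, fun v w h => ?_⟩
    have h1 := (h i j).2 (n + 1) le_rfl
    simp only [FirstOrder.Language.BoundedFormula.Realize]
    show R (n + 1) (@FirstOrder.Language.Term.realize LE X (mkStr fun n => R (n + 1)) _ _ (ts 0))
      (@FirstOrder.Language.Term.realize LE X (mkStr fun n => R (n + 1)) _ _ (ts 1)) ↔
      R' (n + 1) (@FirstOrder.Language.Term.realize LE Y (mkStr fun n => R' (n + 1)) _ _ (ts 0))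
      (@FirstOrder.Language.Term.realize LE Y (mkStr fun n => R' (n + 1)) _ _ (ts 1))
    rw [hi, hj]
    exact h1
  | imp f g ihf ihg =>
    obtain ⟨N1, h1⟩ := ihf
    obtain ⟨N2, h2⟩ := ihg
    refine ⟨max N1 N2, fun v w h => ?_⟩
    exact imp_congr (h1 v w (ElemB_mono (le_max_left _ _) h))
      (h2 v w (ElemB_mono (le_max_right _ _) h))
  | all f ih =>
    obtain ⟨N, h1⟩ := ih
    refine ⟨N, fun v w h => ?_⟩
    constructor
    · intro h2 b
      obtain ⟨a, ha⟩ := pat_ext hR' hR (fun n x y r => (hM n y x r).2) N w v (ElemB_symm h) b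
      exact (h1 _ _ (ElemB_symm ha)).1 (h2 a)
    · intro h2 a
      obtain ⟨b, hb⟩ := pat_ext hR hR' (fun n x y r => (hM n x y r).1) N v w h a
      exact (h1 _ _ hb).2 (h2 b)

theorem elem_equiv [Nonempty X] [Nonempty Y] {R : ℕ → X → X → Prop} {R' : ℕ → Y → Y → Prop}
    (hR : NS R) (hR' : NS R') (hM : ∀ n x y r, Many R n x r ↔ Many R' n y r)
    (φ : LE.Sentence) :
    @FirstOrder.Language.Sentence.Realize LE X (mkStr fun n => R (n + 1)) φ ↔
      @FirstOrder.Language.Sentence.Realize LE Y (mkStr fun n => R' (n + 1)) φ := by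
  obtain ⟨N, h⟩ := realize_iff hR hR' hM φ
  have h1 := h default default (fun i => i.elim0)
  have e1 : (fun e : Empty => (e.elim : X)) = default := Subsingleton.elim _ _
  have e2 : (fun e : Empty => (e.elim : Y)) = default := Subsingleton.elim _ _
  rw [e1, e2] at h1
  exact h1

end MP8da
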