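import Pool.Agent.Lib_MP_8da2c8.Ext

/-!
STEP Fib: the structure attached to `D` is a copy of (valid branches) × (finite coordinates) × K.
-/

namespace MP8da

open Cardinal Set
open scoped Classical

universe u
variable {l : Cardinal.{u}} {K : Type u} [LinearOrder K] [Inhabited K]

private theorem fib_cprod {X : Type u} (hX : ℵ₀ ≤ #X) (A : Type) [Countable A] :
    #(A × X) ≤ #X := by
  rw [Cardinal.mk_prod]
  have h1 : Cardinal.lift.{u} #A ≤ ℵ₀ := by
    rw [← Cardinal.lift_aleph0.{u, 0}, Cardinal.lift_le]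
    exact Cardinal.mk_le_aleph0
  calc Cardinal.lift.{u} #A * Cardinal.lift.{0} #X ≤ ℵ₀ * Cardinal.lift.{0} #X :=
        mul_le_mul_left h1 _
    _ = #X := by rw [Cardinal.lift_uzero, Cardinal.aleph0_mul_eq hX]

private theorem fib_US (hX : ℵ₀ ≤ #K) : #(US K) ≤ #K := by
  let φ : US K → K ⊕ ((Finset ℕ × ℕ) × K) := fun v => match v with
    | .x α => Sum.inl α
    | .y g β i => Sum.inr ((g, i), β)
  have hφ : Function.Injective φ := by
    intro v w h
    cases v <;> cases w <;> simp_all [φ]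
  refine (Cardinal.mk_le_of_injective hφ).trans ?_
  rw [Cardinal.mk_sum, Cardinal.lift_id, Cardinal.lift_id]
  calc #K + #((Finset ℕ × ℕ) × K) ≤ #K + #K := add_le_add le_rfl (fib_cprod hX _)
    _ = #K := Cardinal.add_eq_self hX

private theorem fib_Sy (hX : ℵ₀ ≤ #K) : #(Sy K) ≤ #K := by
  let φ : Sy K → (K × US K) ⊕ ((K × K) ⊕ (K ⊕ ULift.{u} ℕ)) := fun v => match v with
    | .m a v => Sum.inl (a, v)
    | .g ρ i => Sum.inr (Sum.inl (ρ, i))
    | .t i => Sum.inr (Sum.inr (Sum.inl i))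
    | .z n => Sum.inr (Sum.inr (Sum.inr ⟨n⟩))
  have hφ : Function.Injective φ := by
    intro v w h
    cases v <;> cases w <;> simp_all [φ]
  refine (Cardinal.mk_le_of_injective hφ).trans ?_
  simp only [Cardinal.mk_sum, Cardinal.mk_prod, Cardinal.lift_id]
  have h1 : #(ULift.{u} ℕ) ≤ #K := (Cardinal.mk_le_aleph0).trans hX
  have h2 : #K * #(US K) ≤ #K :=
    (mul_le_mul_right (fib_US hX) _).trans (Cardinal.mul_eq_self hX).le
  calc #K * #(US K) + (#K * #K + (#K + #(ULift.{u} ℕ))) ≤ #K + (#K + (#K + #K)) :=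
        add_le_add h2 (add_le_add (Cardinal.mul_eq_self hX).le (add_le_add le_rfl h1))
    _ = #K := by rw [Cardinal.add_eq_self hX, Cardinal.add_eq_self hX, Cardinal.add_eq_self hX]

/-- Proof.  `Sy K` injects into a type of size `≤ #K` (it is a sum of finitely many products of `K`, `Finset ℕ`, `ℕ`), so
`#(ℕ → Sy K) ≤ (2 ^ l) ^ ℵ₀ = 2 ^ (l * ℵ₀) = 2 ^ l = #K`; `#(W p) ≤ 2 ^ ℵ₀ ≤ 2 ^ l`; and
`#K ≤ #(Q K p)` by `i ↦ (d0 K, 0, i)`. -/
theorem card_Q (hK : KOK l K) (p : ℕ → ℕ) : #(Q K p) = #K := by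
  have hX : ℵ₀ ≤ #K := by
    rw [hK.card]
    exact hK.inf.trans (Order.le_succ l)
  have hK2 : #K = 2 ^ l := by rw [hK.card, hK.gch]
  apply le_antisymm
  · have h1 : #(ℕ → Sy K) ≤ #K := by
      rw [Cardinal.mk_arrow, Cardinal.lift_uzero, Cardinal.mk_nat, Cardinal.lift_aleph0]
      calc #(Sy K) ^ (ℵ₀ : Cardinal.{u}) ≤ (2 ^ l) ^ (ℵ₀ : Cardinal.{u}) :=
            Cardinal.power_le_power_right ((fib_Sy hX).trans hK2.le)
        _ = 2 ^ l := by
            rw [← Cardinal.power_mul, Cardinal.mul_aleph0_eq hK.inf]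
        _ = #K := hK2.symm
    have h2 : Cardinal.lift.{u} #(W p) ≤ #K := by
      have h3 : #(W p) ≤ #(ℕ → ℕ) := by
        refine Cardinal.mk_le_of_injective (f := fun w n => ((w n : Fin (p n + 1)) : ℕ)) ?_
        intro w w' h
        funext n
        exact Fin.ext (congrFun h n)
      calc Cardinal.lift.{u} #(W p) ≤ Cardinal.lift.{u} #(ℕ → ℕ) := Cardinal.lift_le.2 h3
        _ = 2 ^ (ℵ₀ : Cardinal.{u}) := by
            simp
        _ ≤ 2 ^ l := Cardinal.power_le_power_left two_ne_zero hK.inf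
        _ = #K := hK2.symm
    rw [Cardinal.mk_prod, Cardinal.lift_id, Cardinal.lift_id, Cardinal.mk_prod,
      Cardinal.lift_uzero]
    calc #(ℕ → Sy K) * (Cardinal.lift.{u} #(W p) * #K) ≤ #K * (#K * #K) :=
          mul_le_mul' h1 (mul_le_mul' h2 le_rfl)
      _ = #K := by rw [Cardinal.mul_eq_self hX, Cardinal.mul_eq_self hX]
  · refine Cardinal.mk_le_of_injective (f := fun i : K => ((d0 K, fun _ => 0, i) : Q K p)) ?_
    intro i j h
    simpa using h

/-- Proof.  The map `F q = (⟨br D q.1, br_valid …⟩, q.2.1)` to `{b // Valid D b} × W p`: every fiber has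
size `#K`: it is `≤ #(Q K p) = #K`, and `≥ #K` because the fiber over `(b, w)` contains all `(b, w, i)`, `i : K`.
So `Q K p ≃ Σ y, fiber y` (`Equiv.sigmaFiberEquiv`) `≃ Σ y, K ≃ ({b // Valid D b} × W p) × K`. -/
theorem fib_equiv (hK : KOK l K) (p : ℕ → ℕ) (D : Set K) :
    ∃ e : Q K p ≃ ({b : ℕ → Sy K // Valid D b} × W p) × K,
      ∀ q, (e q).1.1.1 = br D q.1 ∧ (e q).1.2 = q.2.1 := by
  let F : Q K p → {b : ℕ → Sy K // Valid D b} × W p := fun q => (⟨br D q.1, br_valid D q.1⟩, q.2.1)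
  have hfib : ∀ y : {b : ℕ → Sy K // Valid D b} × W p, Nonempty ({q : Q K p // F q = y} ≃ K) := by
    intro y
    rw [← Cardinal.eq]
    apply le_antisymm
    · exact (Cardinal.mk_subtype_le _).trans (card_Q hK p).le
    · refine Cardinal.mk_le_of_injective
        (f := fun i : K => (⟨(y.1.1, y.2, i), ?_⟩ : {q : Q K p // F q = y})) ?_
      · apply Prod.ext
        · exact Subtype.ext (br_of_valid y.1.2)
        · rfl
      · intro i j h
        have h1 := congrArg (fun z : {q : Q K p // F q = y} => z.1.2.2) h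
        exact h1
  let ε : ∀ y, {q : Q K p // F q = y} ≃ K := fun y => (hfib y).some
  refine ⟨(Equiv.sigmaFiberEquiv F).symm.trans ((Equiv.sigmaCongrRight ε).trans
    (Equiv.sigmaEquivProd _ _)), fun q => ⟨rfl, rfl⟩⟩

/-- Proof.  `g = e_D.trans ((Φ × id) × id) .trans e_E.symm` with `e_D`, `e_E` from `fib_equiv`. -/
theorem riso_of_equiv (hK : KOK l K) (I : Set ℕ) (p : ℕ → ℕ) (D E : Set K)
    (Φ : {b : ℕ → Sy K // Valid D b} ≃ {c : ℕ → Sy K // Valid E c})
    (hΦ : ∀ n b b', Agr n b.1 b'.1 ↔ Agr n (Φ b).1 (Φ b').1) : RIso I p D E := by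
  obtain ⟨eD, hD⟩ := fib_equiv hK p D
  obtain ⟨eE, hE⟩ := fib_equiv hK p E
  let g : Q K p ≃ Q K p := (eD.trans
    ((Φ.prodCongr (Equiv.refl _)).prodCongr (Equiv.refl _))).trans eE.symm
  have hg : ∀ q, eE (g q) = ((Φ (eD q).1.1, (eD q).1.2), (eD q).2) := by
    intro q
    show eE (eE.symm _) = _
    rw [Equiv.apply_symm_apply]
    rfl
  have h1 : ∀ q, br E (g q).1 = (Φ (eD q).1.1).1 := by
    intro q
    rw [← (hE (g q)).1, hg]
  have h2 : ∀ q, (g q).2.1 = q.2.1 := by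
    intro q
    rw [← (hE (g q)).2, hg, ← (hD q).2]
  refine ⟨g, fun n q q' => ?_⟩
  unfold EE
  rw [h1, h1, h2, h2, ← hΦ, (hD q).1, (hD q').1]

end MP8da
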