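import Pool.Agent.Lib_MP_8da2c8.Defs

/-!
STEP Key: the key lemma.
-/

namespace MP8da

open Cardinal Set
open scoped Classical

universe u
variable {K : Type u} [LinearOrder K] [Inhabited K]

omit [LinearOrder K] [Inhabited K] in
private theorem key_main {β : K → K} {D E : Set K} {b c : ℕ → Sy K} (hl : Link β D E b c) {k : ℕ}
    {a : K} {v : US K} (h : b k = .m a v) :
    ∃ v', c k = .m a v' ∧ Lk β D E (H b k) (H c k) v v' := by
  have hk := hl k
  rw [h] at hk
  generalize c k = s at hk
  cases hk with
  | m _ _ v' hv => exact ⟨v', rfl, hv⟩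

omit [LinearOrder K] [Inhabited K] in
private theorem key_mem_H {b : ℕ → Sy K} {j k : ℕ} : j ∈ H b k ↔ j < k ∧ hit b j := by
  unfold H
  rw [Finset.mem_filter, Finset.mem_range]

/-- The invariant.  `t k` is the last time at which `k` was a hit, `n` the present time.
Proof: induction on `Gd`.
Base: `n = 0`, `t = 0`; the third clause is vacuous.
Link `b → c` (by `Link β D E b c`), with `n, t` for `b`: take `n+1` and
`t' k = if hit c k then n + 1 else t k`.  First two clauses: clear from those for `t`.
Third clause: `j < k`, `t' j = t' k < n + 1`: so `¬ hit c j`, `¬ hit c k`, `t j = t k`.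
* If `t k = n` then `hit b k` and `hit b j`.  Say `b k = .m a (.x α)`, `b (k+1) = .m α v`.  Then `c (k+1) = .m α v'` for
  some `v'` (labels are kept: cases on the link at `k+1`), and the link at `k` is `xx`
  (then `c k = .m a (.x α)` and `hit c k`, contradiction) or `out0` (then `c k = .m a (.y (H b k) (β α) 0)`,
  `j ∈ H b k` because `hit b j` and `j < k`, and `β α < α` by `Reg`, as `α ∈ D \ E`).
* If `t k < n` then by induction `b k = .m a (.y g γ 0)`, `b (k+1) = .m α v`, `γ < α`, `j ∈ g`, and `¬ hit b j` (as `t j < n`).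
  In the link at `k`: `outS` has `g = H b k`, so `hit b j`, contradiction; `in0` has `g = H c k`, so `hit c j`, contradiction;
  `inS` is impossible (`0 ≠ i+1`); `id` gives `c k = b k`.  And `c (k+1) = .m α v'`. -/
theorem gd_inv {E : Set K} {c : ℕ → Sy K} (h : Gd E c) :
    ∃ (n : ℕ) (t : ℕ → ℕ), (∀ k, t k ≤ n) ∧ (∀ k, t k = n ↔ hit c k) ∧
      ∀ j k, j < k → t j = t k → t k < n →
        ∃ a g γ α v, c k = .m a (.y g γ 0) ∧ c (k + 1) = .m α v ∧ γ < α ∧ j ∈ g := by
  induction h with
  | base D b hb _ =>
    refine ⟨0, fun _ => 0, fun _ => le_rfl, fun k => ⟨fun _ => hb k, fun _ => rfl⟩, ?_⟩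
    intro j k _ _ h
    exact absurd h (Nat.not_lt_zero 0)
  | link D E β b c _ hr hl ih =>
    obtain ⟨n, t, h1, h2, h3⟩ := ih
    refine ⟨n + 1, fun k => if hit c k then n + 1 else t k, ?_, ?_, ?_⟩
    · intro k
      dsimp only
      split_ifs
      · exact le_rfl
      · exact (h1 k).trans (Nat.le_succ n)
    · intro k
      dsimp only
      split_ifs with h
      · exact ⟨fun _ => h, fun _ => rfl⟩
      · constructor
        · intro h4
          have := h1 k
          omega
        · intro h4
          exact absurd h4 h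
    · intro j k hjk h4 h5
      dsimp only at h4 h5
      have hk : ¬ hit c k := by
        intro h6
        rw [if_pos h6] at h5
        exact lt_irrefl _ h5
      rw [if_neg hk] at h4 h5
      have hj : ¬ hit c j := by
        intro h6
        rw [if_pos h6] at h4
        omega
      rw [if_neg hj] at h4
      by_cases h6 : t k = n
      · obtain ⟨a, α, v, e1, e2⟩ := (h2 k).1 h6
        have hbj : hit b j := (h2 j).1 (h4.trans h6)
        obtain ⟨v1, e3, e4⟩ := key_main hl e1
        obtain ⟨v2, e5, _⟩ := key_main hl e2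
        cases e4 with
        | xx _ _ _ => exact absurd ⟨a, α, v2, e3, e5⟩ hk
        | out0 _ hD hE =>
          refine ⟨a, H b k, β α, α, v2, e3, e5, ?_, key_mem_H.2 ⟨hjk, hbj⟩⟩
          exact hr.1 α fun hiff => hE (hiff.1 hD)
      · have h7 : t k < n := lt_of_le_of_ne (h1 k) h6
        obtain ⟨a, g, γ, α, v, e1, e2, hlt, hg⟩ := h3 j k hjk h4 h7
        have hbj : ¬ hit b j := by
          intro h8
          have h9 := (h2 j).2 h8
          omega
        obtain ⟨v1, e3, e4⟩ := key_main hl e1
        obtain ⟨v2, e5, _⟩ := key_main hl e2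
        cases e4 with
        | outS _ _ _ _ => exact absurd (key_mem_H.1 hg).2 hbj
        | in0 _ _ _ => exact absurd (key_mem_H.1 hg).2 hj
        | id _ _ _ _ _ => exact ⟨a, g, γ, α, v2, e3, e5, hlt, hg⟩

/-- Proof.  Suppose no `k` is OK.  Take `n, t` from `gd_inv`.  No `k` is a hit, so `t k < n` for all `k`;
two of `t 0, …, t n` are equal, say `t j = t k` with `j < k`, and the last clause says that `k` is OK. -/
theorem key {E : Set K} {c : ℕ → Sy K} (h : Gd E c) : ∃ k, OKat c k := by
  by_contra hno
  push Not at hno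
  obtain ⟨n, t, h1, h2, h3⟩ := gd_inv h
  have hlt : ∀ k, t k < n := by
    intro k
    refine lt_of_le_of_ne (h1 k) fun h4 => ?_
    exact hno k (Or.inl ((h2 k).1 h4))
  obtain ⟨j, k, hjk, e⟩ := Finite.exists_ne_map_eq_of_infinite
    (fun k => (⟨t k, hlt k⟩ : Fin n))
  have e' : t j = t k := congrArg Fin.val e
  have key2 : ∀ j k, j < k → t j = t k → False := by
    intro j k hjk e
    obtain ⟨a, g, γ, α, v, e1, e2, e3, _⟩ := h3 j k hjk e (hlt k)
    exact hno k (Or.inr ⟨a, g, γ, 0, α, v, e1, e2, e3⟩)
  rcases lt_or_gt_of_ne hjk with h4 | h4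
  · exact key2 j k h4 e'
  · exact key2 k j h4 e'.symm

end MP8da
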