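import Pool.Agent.Lib_MP_8da2c8.Defs

/-!
STEP LinkA: one step of a link.
-/

namespace MP8da

open Cardinal Set

universe u
variable {K : Type u} [LinearOrder K] [Inhabited K]
variable {β : K → K} {D E : Set K} {h h' : Finset ℕ}

omit [LinearOrder K] [Inhabited K] in
theorem Df_comm (D E : Set K) : Df D E = Df E D := by
  ext α
  change ¬ (α ∈ D ↔ α ∈ E) ↔ ¬ (α ∈ E ↔ α ∈ D)
  rw [iff_comm (a := α ∈ D)]

theorem Reg.symm (hR : Reg β D E) : Reg β E D := by
  unfold Reg at *
  rw [Df_comm E D]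
  exact hR

/-- Proof: by cases; `xx ↦ xx`, `out0 ↦ in0`, `outS ↦ inS`, `in0 ↦ out0`, `inS ↦ outS`, `id ↦ id`. -/
theorem Lk.symm {v v' : US K} (hv : Lk β D E h h' v v') : Lk β E D h' h v' v := by
  cases hv with
  | xx α h1 h2 => exact .xx α h2 h1
  | out0 α h1 h2 => exact .in0 α h2 h1
  | outS α i h1 h2 => exact .inS α i h2 h1
  | in0 α h1 h2 => exact .out0 α h2 h1
  | inS α i h1 h2 => exact .outS α i h2 h1
  | id g γ i h1 h2 => exact .id g γ i (fun α a b => h2 α b a) (fun α a b => h1 α b a)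

theorem LkS.symm {s s' : Sy K} (hs : LkS β D E h h' s s') : LkS β E D h' h s' s := by
  cases hs with
  | m a v v' hv => exact .m a _ _ hv.symm
  | g ρ i => exact .g ρ i
  | t i => exact .t i
  | z n => exact .z n

omit [LinearOrder K] [Inhabited K] in
theorem mem_Df_left {α : K} (h1 : α ∈ D) (h2 : α ∉ E) : α ∈ Df D E := fun h => h2 (h.1 h1)

omit [LinearOrder K] [Inhabited K] in
theorem mem_Df_right {α : K} (h1 : α ∉ D) (h2 : α ∈ E) : α ∈ Df D E := fun h => h1 (h.2 h2)

/-- Proof: cases on the two; the only delicate point: in the cases `outS`/`in0` or `outS`/`inS` we have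
`β α = β α'` with `α ∈ D \ E` and `α' ∈ E \ D`, both in `Df D E`, so `α = α'` by injectivity, a
contradiction; in the cases `in0`/`in0`, `out`/`out` injectivity gives `α = α'`. -/
theorem Lk.func (hR : Reg β D E) {v v' v'' : US K} (h1 : Lk β D E h h' v v')
    (h2 : Lk β D E h h' v v'') : v' = v'' := by
  have hinj := hR.2
  generalize hw : v = w at h2
  cases h1 with
  | xx α a1 a2 =>
    cases h2 with
    | xx α' b1 b2 => cases hw; rfl
    | out0 α' b1 b2 => cases hw; exact absurd a2 b2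
    | outS α' i b1 b2 => cases hw
    | in0 α' b1 b2 => cases hw
    | inS α' i b1 b2 => cases hw
    | id g γ i b1 b2 => cases hw
  | out0 α a1 a2 =>
    cases h2 with
    | xx α' b1 b2 => cases hw; exact absurd b2 a2
    | out0 α' b1 b2 => cases hw; rfl
    | outS α' i b1 b2 => cases hw
    | in0 α' b1 b2 => cases hw
    | inS α' i b1 b2 => cases hw
    | id g γ i b1 b2 => cases hw
  | outS α i a1 a2 =>
    cases h2 with
    | xx α' b1 b2 => cases hw
    | out0 α' b1 b2 => cases hw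
    | outS α' i' b1 b2 =>
      simp only [US.y.injEq] at hw
      rw [hw.2.1, hw.2.2]
    | in0 α' b1 b2 =>
      simp only [US.y.injEq] at hw
      have := hinj (mem_Df_left a1 a2) (mem_Df_right b1 b2) hw.2.1
      rw [this] at a1
      exact absurd a1 b1
    | inS α' i' b1 b2 =>
      simp only [US.y.injEq] at hw
      have := hinj (mem_Df_left a1 a2) (mem_Df_right b1 b2) hw.2.1
      rw [this] at a1
      exact absurd a1 b1
    | id g γ i' b1 b2 =>
      simp only [US.y.injEq] at hw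
      exact absurd ⟨hw.1.symm, hw.2.1.symm⟩ (b1 α a1 a2)
  | in0 α a1 a2 =>
    cases h2 with
    | xx α' b1 b2 => cases hw
    | out0 α' b1 b2 => cases hw
    | outS α' i' b1 b2 =>
      simp only [US.y.injEq] at hw
      have := hinj (mem_Df_right a1 a2) (mem_Df_left b1 b2) hw.2.1
      rw [this] at a1
      exact absurd b1 a1
    | in0 α' b1 b2 =>
      simp only [US.y.injEq] at hw
      rw [hinj (mem_Df_right a1 a2) (mem_Df_right b1 b2) hw.2.1]
    | inS α' i' b1 b2 =>
      simp only [US.y.injEq] at hw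
      exact absurd hw.2.2.symm (Nat.succ_ne_zero _)
    | id g γ i' b1 b2 =>
      simp only [US.y.injEq] at hw
      exact absurd ⟨hw.1.symm, hw.2.1.symm⟩ (b2 α a1 a2)
  | inS α i a1 a2 =>
    cases h2 with
    | xx α' b1 b2 => cases hw
    | out0 α' b1 b2 => cases hw
    | outS α' i' b1 b2 =>
      simp only [US.y.injEq] at hw
      have := hinj (mem_Df_right a1 a2) (mem_Df_left b1 b2) hw.2.1
      rw [this] at a1
      exact absurd b1 a1
    | in0 α' b1 b2 =>
      simp only [US.y.injEq] at hw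
      exact absurd hw.2.2 (Nat.succ_ne_zero _)
    | inS α' i' b1 b2 =>
      simp only [US.y.injEq, Nat.succ.injEq] at hw
      rw [hw.2.1, hw.2.2]
    | id g γ i' b1 b2 =>
      simp only [US.y.injEq] at hw
      exact absurd ⟨hw.1.symm, hw.2.1.symm⟩ (b2 α a1 a2)
  | id g γ i a1 a2 =>
    cases h2 with
    | xx α' b1 b2 => cases hw
    | out0 α' b1 b2 => cases hw
    | outS α' i' b1 b2 =>
      simp only [US.y.injEq] at hw
      exact absurd ⟨hw.1, hw.2.1⟩ (a1 α' b1 b2)
    | in0 α' b1 b2 =>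
      simp only [US.y.injEq] at hw
      exact absurd ⟨hw.1, hw.2.1⟩ (a2 α' b1 b2)
    | inS α' i' b1 b2 =>
      simp only [US.y.injEq] at hw
      exact absurd ⟨hw.1, hw.2.1⟩ (a2 α' b1 b2)
    | id g' γ' i' b1 b2 => exact hw

theorem LkS.func (hR : Reg β D E) {s s' s'' : Sy K} (h1 : LkS β D E h h' s s')
    (h2 : LkS β D E h h' s s'') : s' = s'' := by
  cases h1 with
  | m a v v' hv =>
    cases h2 with
    | m a' w w' hw => rw [hv.func hR hw]
  | g ρ i => cases h2; rfl
  | t i => cases h2; rfl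
  | z n => cases h2; rfl

theorem Lk.total (β : K → K) (D E : Set K) (h h' : Finset ℕ) (v : US K) (hv : uok D v) :
    ∃ v', Lk β D E h h' v v' := by
  classical
  cases v with
  | x α =>
    have hα : α ∈ D := hv
    by_cases h1 : α ∈ E
    · exact ⟨_, .xx α hα h1⟩
    · exact ⟨_, .out0 α hα h1⟩
  | y g γ i =>
    by_cases h1 : ∃ α, α ∈ D ∧ α ∉ E ∧ g = h ∧ γ = β α
    · obtain ⟨α, a1, a2, rfl, rfl⟩ := h1
      exact ⟨_, .outS α i a1 a2⟩
    by_cases h2 : ∃ α, α ∉ D ∧ α ∈ E ∧ g = h' ∧ γ = β α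
    · obtain ⟨α, a1, a2, rfl, rfl⟩ := h2
      cases i with
      | zero => exact ⟨_, .in0 α a1 a2⟩
      | succ i => exact ⟨_, .inS α i a1 a2⟩
    · exact ⟨_, .id g γ i (fun α a1 a2 a3 => h1 ⟨α, a1, a2, a3⟩)
        (fun α a1 a2 a3 => h2 ⟨α, a1, a2, a3⟩)⟩

theorem LkS.total (β : K → K) (D E : Set K) (h h' : Finset ℕ) (s : Sy K)
    (hs : ∀ a v, s = .m a v → uok D v) : ∃ s', LkS β D E h h' s s' := by
  cases s with
  | m a v =>
    obtain ⟨v', hv'⟩ := Lk.total β D E h h' v (hs a v rfl)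
    exact ⟨_, .m a v v' hv'⟩
  | g ρ i => exact ⟨_, .g ρ i⟩
  | t i => exact ⟨_, .t i⟩
  | z n => exact ⟨_, .z n⟩

theorem Lk.uok {v v' : US K} (hv : Lk β D E h h' v v') : MP8da.uok E v' := by
  cases hv with
  | xx α h1 h2 => exact h2
  | out0 α h1 h2 => trivial
  | outS α i h1 h2 => trivial
  | in0 α h1 h2 => exact h2
  | inS α i h1 h2 => trivial
  | id g γ i h1 h2 => trivial

/-- kinds and labels are kept -/
theorem LkS.isM {s s' : Sy K} (hs : LkS β D E h h' s s') : IsM s ↔ IsM s' := by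
  cases hs <;> exact Iff.rfl

theorem LkS.label {s s' : Sy K} (hs : LkS β D E h h' s s') (a : K) :
    (∃ v, s = .m a v) ↔ (∃ v, s' = .m a v) := by
  cases hs with
  | m b v v' hv =>
    constructor
    · rintro ⟨w, hw⟩
      cases hw
      exact ⟨_, rfl⟩
    · rintro ⟨w, hw⟩
      cases hw
      exact ⟨_, rfl⟩
  | g ρ i =>
    constructor
    · rintro ⟨w, hw⟩
      cases hw
    · rintro ⟨w, hw⟩
      cases hw
  | t i =>
    constructor
    · rintro ⟨w, hw⟩
      cases hw
    · rintro ⟨w, hw⟩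
      cases hw
  | z n =>
    constructor
    · rintro ⟨w, hw⟩
      cases hw
    · rintro ⟨w, hw⟩
      cases hw

end MP8da
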