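import Pool.Agent.Lib_MP_8da2c8.LinkA

/-!
STEP LinkB: links between branches.
-/

namespace MP8da

open Cardinal Set
open scoped Classical

universe u
variable {K : Type u} [LinearOrder K] [Inhabited K]
variable {β : K → K} {D E : Set K}

theorem Link.symm {b c : ℕ → Sy K} (h : Link β D E b c) : Link β E D c b :=
  fun k => (h k).symm

theorem H_succ (b : ℕ → Sy K) (k : ℕ) : H b (k + 1) = if hit b k then insert k (H b k) else H b k := by
  unfold H
  rw [Finset.range_add_one, Finset.filter_insert]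

private theorem H_congr {b b' : ℕ → Sy K} {n : ℕ} (h : ∀ j < n, (hit b j ↔ hit b' j)) :
    H b n = H b' n := by
  unfold H
  exact Finset.filter_congr fun j hj => h j (Finset.mem_range.1 hj)

/-- Proof.  Choose `T h h' s` with `LkS β D E h h' s (T h h' s)` for all `s` with
`∀ a v, s = .m a v → uok D v` (`LkS.total`).  Define `hc : ℕ → Finset ℕ` by recursion: `hc 0 = ∅`, and
`hc (k+1) = if (∃ a α v, T (H b k) (hc k) (b k) = .m a (.x α) ∧ b (k+1) = .m α v) then insert k (hc k)
else hc k`, and `c k = T (H b k) (hc k) (b k)`.  Then `H c k = hc k` by induction on `k`, by `H_succ`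
and because `b (k+1) = .m α v` for some `v` iff `c (k+1) = .m α v` for some `v` (`LkS.label`). -/
theorem link_exists (β : K → K) (D E : Set K) (b : ℕ → Sy K)
    (hb : ∀ k a v, b k = .m a v → uok D v) : ∃ c, Link β D E b c := by
  have hT : ∀ (h h' : Finset ℕ) (s : Sy K), ∃ s', (∀ a v, s = .m a v → uok D v) →
      LkS β D E h h' s s' := by
    intro h h' s
    by_cases hs : ∀ a v, s = .m a v → uok D v
    · obtain ⟨s', hs'⟩ := LkS.total β D E h h' s hs
      exact ⟨s', fun _ => hs'⟩
    · exact ⟨s, fun hs' => absurd hs' hs⟩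
  choose T hT using hT
  let hc : ℕ → Finset ℕ := fun n => Nat.rec ∅ (fun k r =>
    if (∃ a α v, T (H b k) r (b k) = .m a (.x α) ∧ b (k + 1) = .m α v) then insert k r else r) n
  have hc0 : hc 0 = ∅ := rfl
  have hcS : ∀ k, hc (k + 1) = if (∃ a α v, T (H b k) (hc k) (b k) = .m a (.x α) ∧
      b (k + 1) = .m α v) then insert k (hc k) else hc k := fun k => rfl
  let c : ℕ → Sy K := fun k => T (H b k) (hc k) (b k)
  have hlk : ∀ k, LkS β D E (H b k) (hc k) (b k) (c k) := fun k => hT _ _ _ (hb k)
  have hHc : ∀ k, H c k = hc k := by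
    intro k
    induction k with
    | zero => rw [hc0]; rfl
    | succ k ih =>
      rw [H_succ, hcS, ih]
      have e : hit c k ↔ (∃ a α v, T (H b k) (hc k) (b k) = .m a (.x α) ∧ b (k + 1) = .m α v) := by
        constructor
        · rintro ⟨a, α, v, h1, h2⟩
          obtain ⟨v', hv'⟩ := ((hlk (k + 1)).label α).2 ⟨v, h2⟩
          exact ⟨a, α, v', h1, hv'⟩
        · rintro ⟨a, α, v, h1, h2⟩
          obtain ⟨v', hv'⟩ := ((hlk (k + 1)).label α).1 ⟨v, h2⟩
          exact ⟨a, α, v', h1, hv'⟩
      simp only [e]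
  refine ⟨c, fun k => ?_⟩
  rw [hHc]
  exact hlk k

/-- Proof: induction on `n`.  Given `Agr (n+1) b b'`; by induction `Agr n c c'`.  `H b n = H b' n`: a hit at `j < n`
depends on the values at `j` and `j+1 ≤ n`.  `H c n = H c' n`: the hit at `j < n` depends on `c j` and on whether
`c (j+1)` is `.m α v` for some `v`, equivalently (`LkS.label`) whether `b (j+1)` is, where `j + 1 ≤ n`.
Then `c n = c' n` by `LkS.func`. -/
theorem link_agr (hR : Reg β D E) {b c b' c' : ℕ → Sy K} (h1 : Link β D E b c)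
    (h2 : Link β D E b' c') (n : ℕ) (h : Agr n b b') : Agr n c c' := by
  induction n with
  | zero => intro i hi; exact absurd hi (Nat.not_lt_zero i)
  | succ n ih =>
    have hn : Agr n c c' := ih fun i hi => h i (hi.trans (Nat.lt_succ_self n))
    have e1 : H b n = H b' n := by
      apply H_congr
      intro j hj
      unfold hit
      rw [h j (hj.trans (Nat.lt_succ_self n)), h (j + 1) (Nat.succ_lt_succ hj)]
    have e2 : H c n = H c' n := by
      apply H_congr
      intro j hj
      have hj1 : b (j + 1) = b' (j + 1) := h (j + 1) (Nat.succ_lt_succ hj)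
      constructor
      · rintro ⟨a, α, v, hv1, hv2⟩
        obtain ⟨v', hv'⟩ := ((h1 (j + 1)).label α).2 ⟨v, hv2⟩
        obtain ⟨v'', hv''⟩ := ((h2 (j + 1)).label α).1 ⟨v', hj1 ▸ hv'⟩
        exact ⟨a, α, v'', by rw [← hn j hj]; exact hv1, hv''⟩
      · rintro ⟨a, α, v, hv1, hv2⟩
        obtain ⟨v', hv'⟩ := ((h2 (j + 1)).label α).2 ⟨v, hv2⟩
        obtain ⟨v'', hv''⟩ := ((h1 (j + 1)).label α).1 ⟨v', hj1.symm ▸ hv'⟩
        exact ⟨a, α, v'', by rw [hn j hj]; exact hv1, hv''⟩
    have e3 : c n = c' n := by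
      have a1 := h1 n
      have a2 := h2 n
      rw [← e1, ← e2, ← h n (Nat.lt_succ_self n)] at a2
      exact a1.func hR a2
    intro i hi
    rcases Nat.lt_succ_iff_lt_or_eq.1 hi with hi | rfl
    · exact hn i hi
    · exact e3

end MP8da
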