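import Pool.Agent.Lib_MP_8da2c8.LinkB

/-!
STEP LinkC: links preserve validity and give a level preserving bijection.
-/

namespace MP8da

open Cardinal Set
open scoped Classical

universe u
variable {K : Type u} [LinearOrder K] [Inhabited K]
variable {β : K → K} {D E : Set K}

private theorem linkC_step {h h' : Finset ℕ} {s s' t t' : Sy K}
    (hp : (∃ a v v', s = .m a v ∧ s' = .m a v') ∨ s = s') (ht : LkS β D E h h' t t')
    (hst : Step D s t) : Step E s' t' := by
  cases ht with
  | m a v v' hv =>
    have hu : uok E v' := hv.uok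
    rcases hp with ⟨a1, v1, v2, rfl, rfl⟩ | rfl
    · exact hu
    · cases s with
      | m a1 v1 => exact hu
      | g ρ i => exact hst.elim
      | t i => exact hst.elim
      | z n => exact hst.elim
  | g ρ i =>
    rcases hp with ⟨a1, v1, v2, rfl, rfl⟩ | rfl
    · exact hst
    · cases s with
      | m a1 v1 => exact hst
      | g ρ' i' => exact hst
      | t i' => exact hst.elim
      | z n => exact hst.elim
  | t i =>
    rcases hp with ⟨a1, v1, v2, rfl, rfl⟩ | rfl
    · exact hst.elim
    · cases s with
      | m a1 v1 => exact hst.elim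
      | g ρ' i' => exact trivial
      | t i' => exact hst.elim
      | z n => exact hst.elim
  | z n =>
    rcases hp with ⟨a1, v1, v2, rfl, rfl⟩ | rfl
    · exact hst.elim
    · cases s with
      | m a1 v1 => exact hst.elim
      | g ρ' i' => exact hst.elim
      | t i' => exact trivial
      | z n => exact trivial

private theorem linkC_kind {h h' : Finset ℕ} {s s' : Sy K} (hs : LkS β D E h h' s s') :
    (∃ a v v', s = .m a v ∧ s' = .m a v') ∨ s = s' := by
  cases hs with
  | m a v v' hv => exact Or.inl ⟨a, v, v', rfl, rfl⟩
  | g ρ i => exact Or.inr rfl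
  | t i => exact Or.inr rfl
  | z n => exact Or.inr rfl

private theorem linkC_uok {s : Sy K} {a : K} {v : US K} (h : Step D s (.m a v)) : uok D v := by
  cases s with
  | m a1 v1 => exact h
  | g ρ i => exact h.elim
  | t i => exact h.elim
  | z n => exact h.elim

/-- Proof.  `Step D (prev b n) (b n)` gives `Step E (prev c n) (c n)`: kinds and the labels/ranks agree
(for `n = 0` the previous symbol is `start K` in both), and a main symbol of `c` is allowed for `E`
by `Lk.uok`.  If `c` is all main then so is `b` (`LkS.isM`), so `Gd D b` and `Gd E c` by `Gd.link`. -/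
theorem link_valid (hR : Reg β D E) {b c : ℕ → Sy K} (h : Link β D E b c) (hb : Valid D b) :
    Valid E c := by
  refine ⟨fun n => ?_, fun hM => ?_⟩
  · refine linkC_step ?_ (h n) (hb.1 n)
    cases n with
    | zero => exact Or.inr rfl
    | succ n => exact linkC_kind (h n)
  · exact Gd.link D E β b c (hb.2 fun n => (h n).isM.2 (hM n)) hR h

/-- Proof.  A valid `b` satisfies the hypothesis of `link_exists` (all its `x α` have `α ∈ D`, by `Step`; note
`Step D s (.m a v)` implies `uok D v` for every `s`).  So choose `F b` with `Link β D E b (F b)`, and `G` in the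
other direction (`Reg.symm`, `Link.symm`).  `G (F b) = b`: both `b` and `G (F b)` are linked (in the
direction `E → D`) to `F b`, so they agree below every `n` by `link_agr` (with `Agr n (F b) (F b)`).
The equivalence of the `Agr`'s is `link_agr` in both directions. -/
theorem valid_equiv (hR : Reg β D E) :
    ∃ Φ : {b : ℕ → Sy K // Valid D b} ≃ {c : ℕ → Sy K // Valid E c},
      ∀ n b b', Agr n b.1 b'.1 ↔ Agr n (Φ b).1 (Φ b').1 := by
  have hF : ∀ {D E : Set K}, Reg β D E → ∀ b : {b : ℕ → Sy K // Valid D b},
      ∃ c : {c : ℕ → Sy K // Valid E c}, Link β D E b.1 c.1 := by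
    intro D E hR b
    obtain ⟨c, hc⟩ := link_exists β D E b.1 (fun k a v hk => by
      have h1 := b.2.1 k
      rw [hk] at h1
      exact linkC_uok h1)
    exact ⟨⟨c, link_valid hR hc b.2⟩, hc⟩
  choose F hFl using hF hR
  choose G hGl using hF hR.symm
  have heq : ∀ {x y : ℕ → Sy K}, (∀ n, Agr n x y) → x = y := by
    intro x y h
    funext n
    exact h (n + 1) n (Nat.lt_succ_self n)
  refine ⟨⟨F, G, ?_, ?_⟩, ?_⟩
  · intro b
    apply Subtype.ext
    exact heq fun n => link_agr hR.symm (hGl (F b)) (hFl b).symm n (fun i _ => rfl)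
  · intro c
    apply Subtype.ext
    exact heq fun n => link_agr hR (hFl (G c)) (hGl c).symm n (fun i _ => rfl)
  · intro n b b'
    exact ⟨fun h => link_agr hR (hFl b) (hFl b') n h,
      fun h => link_agr hR.symm (hFl b).symm (hFl b').symm n h⟩

end MP8da
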