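import Pool.Agent.Lib_MP_8da2c8.RigidB
import Pool.Agent.Lib_MP_8da2c8.ClubA
import Pool.Agent.Lib_MP_8da2c8.Key

/-!
STEP NonIso: if `D \ E` is stationary the structures attached to `D` and `E` are not isomorphic.
-/

namespace MP8da

open Cardinal Set
open scoped Classical

universe u
variable {l : Cardinal.{u}} {K : Type u} [LinearOrder K] [WellFoundedLT K] [Inhabited K]
variable {I : Set ℕ} {p : ℕ → ℕ} {D E : Set K}

private theorem step_x {s : Sy K} {a α : K} (h : Step E s (.m a (.x α))) : α ∈ E := by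
  cases s <;> simp_all [Step, uok]

/-- Proof.  For `α ∈ D` let `q α = (ext b k (.m a (.x α)), w, default)`; the branch is valid (`ext_valid`; `prev b k` is main, and
`uok D (.x α)`), its symbol at `k` is `.m a (.x α)`, so by `label_map` the branch `c α` of `g (q α)` has
`c α k = .m a (V α)` for some `V α`.  Suppose the claim fails.  Let `α ∈ D \ E`.  `V α ≠ .x α` because `c α` is valid for `E` and
`α ∉ E`.  So `V α = .y (s α) (r α) (i α)` with `r α < α`.  Apply `pressing` to `Z = D \ E` and `r`: it suffices that every fiber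
`{α ∈ Z | r α = γ}` is countable (`ℵ₀ ≤ l`).  The map `α ↦ (s α, i α, fun j : Fin (nI I (k+1)) => (g (q α)).2.1 j)` to the
countable type `Finset ℕ × ℕ × (∀ j : Fin _, Fin (p j + 1))` is injective on the fiber: all `q α` are `RR k`-equivalent
(they agree with `b` below `k`), hence so are the `g (q α)`; if `α, α'` have the same values then `g (q α)` and
`g (q α')` are `RR (k+1)`-equivalent, so `q α` and `q α'` are, so `.m a (.x α) = .m a (.x α')`. -/
theorem one_step (hK : KOK l K) (hst : IsStationary (D \ E)) (g : Q K p ≃ Q K p)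
    (hg : ∀ k q q', RR I p D k q q' ↔ RR I p E k (g q) (g q')) (b : ℕ → Sy K) (hb : Valid D b)
    (k : ℕ) (hk : IsM (prev b k)) (w : W p) (a : K) :
    ∃ α ∈ D, ∃ v, br E (g (ext b k (.m a (.x α)), w, default)).1 k = .m a v ∧ v ≠ .x α ∧
      ∀ s γ i, v = .y s γ i → ¬ γ < α := by
  set q : K → Q K p := fun α => (ext b k (.m a (.x α)), w, default) with hq
  have hval : ∀ α ∈ D, Valid D (ext b k (.m a (.x α))) := by
    intro α hα
    refine ext_valid hb k _ ?_
    revert hk
    cases prev b k <;> simp [IsM, Step, uok, hα]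
  have hlab : ∀ α ∈ D, ∃ v, br E (g (q α)).1 k = .m a v := by
    intro α hα
    refine label_map hK g hg (q α) k a ⟨.x α, ?_⟩
    change br D (ext b k (.m a (.x α))) k = _
    rw [br_of_valid (hval α hα), ext_at]
  have hne : Nonempty (US K) := ⟨.x default⟩
  choose! V hV using hlab
  by_contra hcon
  push Not at hcon
  have hY : ∀ α ∈ D \ E, ∃ s γ i, V α = .y s γ i ∧ γ < α := by
    intro α hα
    refine hcon α hα.1 (V α) (hV α hα.1) ?_
    intro hx
    apply hα.2
    have h2 := (br_valid E (g (q α)).1).1 k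
    rw [hV α hα.1, hx] at h2
    exact step_x h2
  choose! s r i hs using hY
  refine pressing hK (D \ E) r (fun α hα => (hs α hα).2) ?_ hst
  intro γ
  have hcount : Countable {α : K // α ∈ D \ E ∧ r α = γ} := by
    refine Function.Injective.countable
      (f := fun α : {α : K // α ∈ D \ E ∧ r α = γ} =>
        ((s α.1, i α.1, fun j => (g (q α.1)).2.1 j) :
          Finset ℕ × ℕ × (∀ j : Fin (nI I (k + 1)), Fin (p j + 1)))) ?_
    rintro ⟨α, hα, hrα⟩ ⟨α', hα', hrα'⟩ heq
    simp only [Prod.mk.injEq] at heq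
    obtain ⟨h1, h2, h3⟩ := heq
    have hk0 : RR I p D k (q α) (q α') := by
      refine ⟨?_, fun j _ => rfl⟩
      intro j hj
      change br D (ext b k (.m a (.x α))) j = br D (ext b k (.m a (.x α'))) j
      rw [br_of_valid (hval α hα.1), br_of_valid (hval α' hα'.1), ext_lt _ _ hj, ext_lt _ _ hj]
    have hk1 := (hg k _ _).1 hk0
    have hk2 : RR I p E (k + 1) (g (q α)) (g (q α')) := by
      refine ⟨?_, ?_⟩
      · intro j hj
        rcases Nat.lt_succ_iff_lt_or_eq.1 hj with h | h
        · exact hk1.1 j h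
        · rw [h, hV α hα.1, hV α' hα'.1, (hs α hα).1, (hs α' hα').1, h1, h2, hrα, hrα']
      · intro j hj
        exact congrFun h3 ⟨j, hj⟩
    have hk3 := ((hg (k + 1) _ _).2 hk2).1 k (Nat.lt_succ_self k)
    change br D (ext b k (.m a (.x α))) k = br D (ext b k (.m a (.x α'))) k at hk3
    rw [br_of_valid (hval α hα.1), br_of_valid (hval α' hα'.1), ext_at, ext_at] at hk3
    simp only [Sy.m.injEq, US.x.injEq, true_and] at hk3
    exact Subtype.ext hk3
  exact (Cardinal.mk_le_aleph0_iff.2 hcount).trans hK.inf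

/-- Proof.  Fix `w = 0`.  By recursion on `k` define valid `B k` with `IsM (prev (B k) k)` and labels `a k`:
`B 0 = d0 K`, `a 0 = default`; given `B k, a k` choose `α k` by `one_step`, put `B (k+1) = ext (B k) k (.m (a k) (.x (α k)))` and
`a (k+1) = α k`.  Let `b k = .m (a k) (.x (α k))`.  Then `Agr k b (B k)` for all `k`; `hit b k` for all `k`; so
`Gd D b` by `Gd.base` and `Valid D b`.  Let `c = br E (g (b, w, default)).1`.  For every `k`,
`RR (k+1) (b, w, default) (B (k+1), w, default)`, so `c` agrees with the branch of `g (B (k+1), w, default)` at `k`: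
`c k = .m (a k) (v k)` with `v k ≠ .x (α k)` and `v k ≠ .y s γ i` for `γ < α k`.  So `c` is all main, and valid for `E`, so
`Gd E c`.  By `key` some `k` is OK for `c`: either `hit c k`: `c k = .m _ (.x α)` and `c (k+1) = .m α _`, so
`α = a (k+1) = α k`, contradiction; or `c k = .m _ (.y s γ i)`, `c (k+1) = .m α _`, `γ < α = α k`, contradiction. -/
theorem noniso_RR (hK : KOK l K) (hst : IsStationary (D \ E)) (g : Q K p ≃ Q K p)
    (hg : ∀ k q q', RR I p D k q q' ↔ RR I p E k (g q) (g q')) : False := by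
  set w : W p := fun _ => 0 with hw
  have hstep : ∀ (b : ℕ → Sy K) (k : ℕ) (a : K), ∃ α : K, Valid D b → IsM (prev b k) →
      (α ∈ D ∧ ∃ v, br E (g (ext b k (.m a (.x α)), w, default)).1 k = .m a v ∧ v ≠ .x α ∧
      ∀ s γ i, v = .y s γ i → ¬ γ < α) := by
    intro b k a
    by_cases h : Valid D b ∧ IsM (prev b k)
    · obtain ⟨α, h1, h2⟩ := one_step hK hst g hg b h.1 k h.2 w a
      exact ⟨α, fun _ _ => ⟨h1, h2⟩⟩
    · exact ⟨default, fun h1 h2 => absurd ⟨h1, h2⟩ h⟩
  choose A hA using hstep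
  let B : ℕ → (ℕ → Sy K) × K := fun k => Nat.rec (d0 K, default)
    (fun k st => (ext st.1 k (.m st.2 (.x (A st.1 k st.2))), A st.1 k st.2)) k
  have hB0 : B 0 = (d0 K, default) := rfl
  have hBs : ∀ k, B (k + 1) = (ext (B k).1 k (.m (B k).2 (.x (A (B k).1 k (B k).2))),
      A (B k).1 k (B k).2) := fun _ => rfl
  have hB : ∀ k, Valid D (B k).1 ∧ IsM (prev (B k).1 k) := by
    intro k
    induction k with
    | zero =>
      rw [hB0]
      exact ⟨d0_valid D, trivial⟩
    | succ k ih =>
      have h1 := hA (B k).1 k (B k).2 ih.1 ih.2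
      rw [hBs]
      refine ⟨ext_valid ih.1 k _ ?_, ?_⟩
      · have h2 := ih.2
        revert h2
        cases prev (B k).1 k <;> simp [IsM, Step, uok, h1.1]
      · change IsM (ext (B k).1 k (.m (B k).2 (.x (A (B k).1 k (B k).2))) k)
        rw [ext_at]
        trivial
  let a : ℕ → K := fun k => (B k).2
  let α : ℕ → K := fun k => A (B k).1 k (B k).2
  have ha : ∀ k, a (k + 1) = α k := fun _ => rfl
  let b : ℕ → Sy K := fun k => .m (a k) (.x (α k))
  have hagr : ∀ k, Agr k b (B k).1 := by
    intro k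
    induction k with
    | zero => intro j hj; omega
    | succ k ih =>
      intro j hj
      rw [hBs]
      rcases Nat.lt_succ_iff_lt_or_eq.1 hj with h | h
      · change b j = ext (B k).1 k _ j
        rw [ext_lt _ _ h]
        exact ih j h
      · change b j = ext (B k).1 k _ j
        rw [h, ext_at]
  have hαD : ∀ k, α k ∈ D := fun k => (hA (B k).1 k (B k).2 (hB k).1 (hB k).2).1
  have hhit : ∀ k, hit b k := fun k => ⟨a k, α k, .x (α (k + 1)), rfl, rfl⟩
  have hGb : Gd D b := by
    refine Gd.base D b hhit ?_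
    intro k a' α' h
    simp only [b, Sy.m.injEq, US.x.injEq] at h
    rw [← h.2]
    exact hαD k
  have hVb : Valid D b := by
    refine ⟨?_, fun _ => hGb⟩
    intro n
    cases n with
    | zero => exact hαD 0
    | succ n => exact hαD (n + 1)
  have hc : ∀ k, ∃ v, br E (g (b, w, default)).1 k = .m (a k) v ∧ v ≠ .x (α k) ∧
      ∀ s γ i, v = .y s γ i → ¬ γ < α k := by
    intro k
    obtain ⟨-, v, h1, h2, h3⟩ := hA (B k).1 k (B k).2 (hB k).1 (hB k).2
    refine ⟨v, ?_, h2, h3⟩
    have h4 : RR I p D (k + 1) (b, w, default)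
        (ext (B k).1 k (.m (B k).2 (.x (A (B k).1 k (B k).2))), w, default) := by
      refine ⟨?_, fun j _ => rfl⟩
      change Agr (k + 1) (br D b) (br D (B (k + 1)).1)
      rw [br_of_valid hVb, br_of_valid (hB (k + 1)).1]
      exact hagr (k + 1)
    rw [((hg (k + 1) _ _).1 h4).1 k (Nat.lt_succ_self k)]
    exact h1
  have hVc := br_valid E (g (b, w, default)).1
  have hGc : Gd E (br E (g (b, w, default)).1) := by
    refine hVc.2 ?_
    intro n
    obtain ⟨v, hv, -⟩ := hc n
    rw [hv]
    trivial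
  obtain ⟨k, hk⟩ := key hGc
  obtain ⟨v, hv, hv1, hv2⟩ := hc k
  obtain ⟨v', hv', -⟩ := hc (k + 1)
  rcases hk with ⟨a', α', v'', h1, h2⟩ | ⟨a', s', γ', i', α', v'', h1, h2, h3⟩
  · rw [hv] at h1
    rw [hv'] at h2
    simp only [Sy.m.injEq] at h1 h2
    apply hv1
    rw [h1.2, ← h2.1]
  · rw [hv] at h1
    rw [hv'] at h2
    simp only [Sy.m.injEq] at h1 h2
    refine hv2 s' γ' i' h1.2 ?_
    rw [← ha, h2.1]
    exact h3

/-- Proof.  `cnt I (nI I k) = k` (`Nat.count_nth` for the infinite set `I`), so `RR I p D k = EE I p D (nI I k)`. -/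
theorem rr_of_riso (hI : I.Infinite) (h : RIso I p D E) : ∃ g : Q K p ≃ Q K p,
    ∀ k q q', RR I p D k q q' ↔ RR I p E k (g q) (g q') := by
  obtain ⟨g, hg⟩ := h
  have hc : ∀ k, cnt I (nI I k) = k := by
    intro k
    exact Nat.count_nth_of_infinite hI k
  have hRR : ∀ (D : Set K) k q q', RR I p D k q q' ↔ EE I p D (nI I k) q q' := by
    intro D k q q'
    unfold RR EE
    rw [hc]
  refine ⟨g, fun k q q' => ?_⟩
  rw [hRR, hRR]
  exact hg _ _ _

theorem noniso (hK : KOK l K) (hI : I.Infinite) (hst : IsStationary (D \ E)) :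
    ¬ RIso I p D E := by
  intro h
  obtain ⟨g, hg⟩ := rr_of_riso hI h
  exact noniso_RR hK hst g hg

end MP8da
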