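import Pool.Agent.Lib_MP_8da2c8.Models
import Pool.Agent.Lib_MP_8da2c8.NonIso
import Pool.Agent.Lib_MP_8da2c8.BorelB
import Pool.Agent.Lib_MP_8da2c8.LinkC
import Pool.Agent.Lib_MP_8da2c8.ClubC

/-!
STEP Main: assembly.
-/

namespace MP8da

open Cardinal Set FirstOrder
open scoped Classical

universe u
variable {l : Cardinal.{u}} {K : Type u} [LinearOrder K] [WellFoundedLT K] [Inhabited K]

theorem riso_symm {I : Set ℕ} {p : ℕ → ℕ} {D E : Set K} (h : RIso I p D E) : RIso I p E D := by
  obtain ⟨g, hg⟩ := h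
  refine ⟨g.symm, fun n q q' => ?_⟩
  rw [hg]
  simp

theorem riso_iff (hK : KOK l K) (I : Set ℕ) (hI : I.Infinite) (p : ℕ → ℕ) (S : Set K)
    (η ξ : K → Bool) : EqNS S η ξ ↔ RIso I p (DD l S η) (DD l S ξ) := by
  rw [eqNS_iff hK]
  constructor
  · intro h
    obtain ⟨β, hβ⟩ := exists_reg hK _ _ (df_subset S η ξ) h
    obtain ⟨Φ, hΦ⟩ := valid_equiv hβ
    exact riso_of_equiv hK I p _ _ Φ hΦ
  · intro h hst
    rcases stat_cases hK _ _ hst with h1 | h1
    · exact noniso hK hI h1 h
    · exact noniso hK hI h1 (riso_symm h)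

theorem codeStr_code {I : Set ℕ} {p : ℕ → ℕ} (S : Set K) (e : K ≃ Q K p) (π : ℕ × K × K ≃ K)
    (η : K → Bool) : codeStr π (code l S I p e π η) =
      mkStr fun n a b => EE I p (DD l S η) (n + 1) (e a) (e b) := by
  unfold codeStr
  congr 1
  funext n a b
  simp only [code, Equiv.symm_apply_apply, decide_eq_true_eq]

theorem iso_iff {I : Set ℕ} {p : ℕ → ℕ} (S : Set K) (e : K ≃ Q K p) (π : ℕ × K × K ≃ K)
    (η ξ : K → Bool) :
    Nonempty (@FirstOrder.Language.Equiv LE K K (codeStr π (code l S I p e π η))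
      (codeStr π (code l S I p e π ξ))) ↔ RIso I p (DD l S η) (DD l S ξ) := by
  rw [codeStr_code, codeStr_code]
  constructor
  · rintro ⟨φ⟩
    refine ⟨(e.symm.trans (@FirstOrder.Language.Equiv.toEquiv LE K K (_) (_) φ)).trans e, ?_⟩
    intro n q q'
    cases n with
    | zero =>
      have h0 : ∀ (D : Set K) (q q' : Q K p), EE I p D 0 q q' := by
        intro D q q'
        refine ⟨fun j hj => ?_, fun j hj => absurd hj (Nat.not_lt_zero j)⟩
        simp [cnt] at hj
      exact iff_of_true (h0 _ _ _) (h0 _ _ _)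
    | succ n =>
      have h := @FirstOrder.Language.Equiv.map_rel' LE K K (_) (_) φ 2 (Rel.E n)
        ![e.symm q, e.symm q']
      have h1 : EE I p (DD l S ξ) (n + 1) (e (φ.toFun (e.symm q))) (e (φ.toFun (e.symm q'))) ↔
          EE I p (DD l S η) (n + 1) (e (e.symm q)) (e (e.symm q')) := h
      rw [Equiv.apply_symm_apply, Equiv.apply_symm_apply] at h1
      exact h1.symm
  · rintro ⟨g, hg⟩
    refine ⟨@FirstOrder.Language.Equiv.mk LE K K (_) (_) ((e.trans g).trans e.symm) ?_ ?_⟩
    · intro n f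
      exact f.elim
    · intro n r x
      cases r with
      | E n =>
        change EE I p (DD l S ξ) (n + 1) (e (e.symm (g (e (x 0))))) (e (e.symm (g (e (x 1))))) ↔
          EE I p (DD l S η) (n + 1) (e (x 0)) (e (x 1))
        rw [Equiv.apply_symm_apply, Equiv.apply_symm_apply]
        exact (hg _ _ _).symm

theorem main (hK : KOK l K) (A : ℕ → Type) [∀ n, Nonempty (A n)]
    (hA : {n | Infinite (A n)}.Infinite) (S : Set K) (π : ℕ × K × K ≃ K) :
    BorelRed (EqNS S) (Isom (TA A) π) := by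
  set I : Set ℕ := {n | Infinite (A n)} with hI
  set p : ℕ → ℕ := fun n => Nat.card (A n) - 1 with hp
  have hp' : ∀ n, n ∉ I → Nat.card (A n) = p n + 1 := by
    intro n hn
    have hfin : Finite (A n) := by
      rcases finite_or_infinite (A n) with h | h
      · exact h
      · exact absurd h hn
    have : 0 < Nat.card (A n) := Nat.card_pos
    simp only [hp]
    omega
  have hQ : #K = #(Q K p) := (card_Q hK p).symm
  obtain ⟨e⟩ := Cardinal.eq.1 hQ
  have hmod := fun η => codes_model hK A I hI hA p hp' S e π η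
  refine ⟨code l S I p e π, borelMap_code hK S I p e π, fun η ξ => ?_⟩
  rw [riso_iff hK I hA p S η ξ, ← iso_iff (l := l) S e π η ξ]
  constructor
  · intro h
    exact Or.inl ⟨hmod η, hmod ξ, h⟩
  · rintro (h | h)
    · exact h.2.2
    · exact absurd (hmod η) h.1

end MP8da
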