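import Pool.Agent.Lib_MP_8da2c8.ElemB
import Pool.Agent.Lib_MP_8da2c8.Ext
import Pool.Agent.Lib_MP_8da2c8.Fib

/-!
STEP Models: the coded structures are models of the theory.
-/

namespace MP8da

open Cardinal Set FirstOrder
open scoped Classical

universe u
variable {l : Cardinal.{u}} {K : Type u} [LinearOrder K] [WellFoundedLT K] [Inhabited K]

/-- Proof of `inf`: given `n`, `x` and a finite `F`, choose `i ≥ n` with `A i` infinite, and change `x i` to a value different from
all `y i`, `y ∈ F`. -/
theorem ns_prod (A : ℕ → Type) [∀ n, Nonempty (A n)] (hA : {n | Infinite (A n)}.Infinite) :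
    NS (X := ∀ n, A n) (fun n x y => ∀ j < n, x j = y j) where
  refl := fun _ _ _ _ => rfl
  symm := fun _ _ _ h j hj => (h j hj).symm
  trans := fun _ _ _ _ h h' j hj => (h j hj).trans (h' j hj)
  mono := fun _ _ _ h j hj => h j (Nat.lt_succ_of_lt hj)
  zero := fun _ _ j hj => absurd hj (Nat.not_lt_zero j)
  inf := by
    intro n x F
    obtain ⟨i, hi, hin⟩ := hA.exists_gt n
    have hi' : Infinite (A i) := hi
    obtain ⟨a, ha⟩ := Infinite.exists_notMem_finset (F.image (fun y => y i))
    refine ⟨Function.update x i a, fun h => ha ?_, fun j hj => ?_⟩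
    · rw [Finset.mem_image]
      exact ⟨_, h, Function.update_self i a x⟩
    · rw [Function.update_of_ne (by omega)]

theorem many_prod (A : ℕ → Type) [∀ n, Nonempty (A n)] (n : ℕ) (x : ∀ n, A n) (r : ℕ) :
    Many (X := ∀ n, A n) (fun n x y => ∀ j < n, x j = y j) n x r ↔
      ∃ F : Finset (A n), F.card = r := by
  constructor
  · rintro ⟨F, hF, h1, h2⟩
    refine ⟨F.image (fun y => y n), ?_⟩
    rw [Finset.card_image_of_injOn, hF]
    intro y hy y' hy' h
    refine h2 y hy y' hy' (fun j hj => ?_)
    rcases Nat.lt_succ_iff_lt_or_eq.1 hj with h3 | rfl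
    · exact (h1 y hy j h3).symm.trans (h1 y' hy' j h3)
    · exact h
  · rintro ⟨F, hF⟩
    refine ⟨F.image (fun a => Function.update x n a), ?_, ?_, ?_⟩
    · rw [Finset.card_image_of_injective _ (Function.update_injective x n), hF]
    · intro y hy j hj
      obtain ⟨a, -, rfl⟩ := Finset.mem_image.1 hy
      rw [Function.update_of_ne (by omega)]
    · intro y hy y' hy' h
      obtain ⟨a, -, rfl⟩ := Finset.mem_image.1 hy
      obtain ⟨a', -, rfl⟩ := Finset.mem_image.1 hy'
      have h1 := h n (Nat.lt_succ_self n)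
      rw [Function.update_self, Function.update_self] at h1
      rw [h1]

private theorem inf_of_KOK (hK : KOK l K) : Infinite K := by
  rw [Cardinal.infinite_iff, hK.card]
  exact hK.inf.trans (Order.le_succ l)

/-- Proof of `inf`: change the copy number (`K` is infinite). -/
theorem ns_EE (hK : KOK l K) (I : Set ℕ) (p : ℕ → ℕ) (D : Set K) :
    NS (EE (K := K) I p D) where
  refl := fun _ _ => ⟨fun _ _ => rfl, fun _ _ => rfl⟩
  symm := fun _ _ _ h => ⟨fun j hj => (h.1 j hj).symm, fun j hj => (h.2 j hj).symm⟩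
  trans := fun _ _ _ _ h h' =>
    ⟨fun j hj => (h.1 j hj).trans (h'.1 j hj), fun j hj => (h.2 j hj).trans (h'.2 j hj)⟩
  mono := fun n _ _ h =>
    ⟨fun j hj => h.1 j (lt_of_lt_of_le hj (Nat.count_monotone _ (Nat.le_succ n))),
      fun j hj => h.2 j (Nat.lt_succ_of_lt hj)⟩
  zero := by
    intro x y
    refine ⟨fun j hj => ?_, fun j hj => absurd hj (Nat.not_lt_zero j)⟩
    unfold cnt at hj
    rw [Nat.count_zero] at hj
    exact absurd hj (Nat.not_lt_zero j)
  inf := by
    intro n q F
    have := inf_of_KOK hK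
    obtain ⟨i, hi⟩ := Infinite.exists_notMem_finset (F.image (fun y => y.2.2))
    refine ⟨(q.1, q.2.1, i), fun h => hi ?_, ⟨fun _ _ => rfl, fun _ _ => rfl⟩⟩
    rw [Finset.mem_image]
    exact ⟨_, h, rfl⟩

private theorem step_seq (hK : KOK l K) (D : Set K) (s : Sy K) :
    ∃ f : ℕ → Sy K, Function.Injective f ∧ ∀ i, Step D s (f i) := by
  have := inf_of_KOK hK
  have g := Infinite.natEmbedding K
  cases s with
  | m a v =>
    refine ⟨fun i => .g a (g i), fun i j h => ?_, fun i => rfl⟩
    simp only [Sy.g.injEq, true_and] at h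
    exact g.injective h
  | g ρ j =>
    refine ⟨fun i => .t (g i), fun i j h => ?_, fun i => trivial⟩
    simp only [Sy.t.injEq] at h
    exact g.injective h
  | t j =>
    refine ⟨fun i => .z i, fun i j h => ?_, fun i => trivial⟩
    simpa only [Sy.z.injEq] using h
  | z j =>
    refine ⟨fun i => .z i, fun i j h => ?_, fun i => trivial⟩
    simpa only [Sy.z.injEq] using h

/-- Proof.  Let `b = br D q.1`, `k = cnt I n`, so `cnt I (n+1) = k + 1`.  There is an injective sequence `s : ℕ → Sy K` with
`Step D (prev b k) (s i)` for all `i`: after `m a v` take `g a (f i)`, after `g ρ j` take `t (f i)` (with `f : ℕ → K` injective), after `t`, `z`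
take `z i`.  The elements `(ext b k (s i), q.2.1, default)`, `i < r`, are as required. -/
theorem many_EE_mem (hK : KOK l K) (I : Set ℕ) (p : ℕ → ℕ) (D : Set K) (n : ℕ) (hn : n ∈ I)
    (q : Q K p) (r : ℕ) : Many (EE (K := K) I p D) n q r := by
  obtain ⟨s, hs, hst⟩ := step_seq hK D (prev (br D q.1) (cnt I n))
  have hbr : ∀ i, br D (ext (br D q.1) (cnt I n) (s i)) = ext (br D q.1) (cnt I n) (s i) := fun i =>
    br_of_valid (ext_valid (br_valid D q.1) (cnt I n) (s i) (hst i))
  have hc : cnt I (n + 1) = cnt I n + 1 := by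
    unfold cnt
    rw [Nat.count_succ, if_pos hn]
  have hinj : ∀ i j, ext (br D q.1) (cnt I n) (s i) (cnt I n) = ext (br D q.1) (cnt I n) (s j) (cnt I n) →
      i = j := by
    intro i j h
    rw [ext_at, ext_at] at h
    exact hs h
  refine ⟨(Finset.range r).image (fun i => ((ext (br D q.1) (cnt I n) (s i), q.2.1, default) : Q K p)),
    ?_, ?_, ?_⟩
  · rw [Finset.card_image_of_injective, Finset.card_range]
    intro i j h
    exact hinj i j (congrFun (congrArg Prod.fst h) _)
  · intro y hy
    obtain ⟨i, -, rfl⟩ := Finset.mem_image.1 hy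
    refine ⟨?_, fun _ _ => rfl⟩
    simp only
    rw [hbr i]
    exact agr_ext _ _ _
  · intro y hy y' hy' h
    obtain ⟨i, -, rfl⟩ := Finset.mem_image.1 hy
    obtain ⟨j, -, rfl⟩ := Finset.mem_image.1 hy'
    have h1 := h.1 (cnt I n) (by rw [hc]; exact Nat.lt_succ_self _)
    simp only at h1
    rw [hbr i, hbr j] at h1
    rw [hinj i j h1]

/-- Proof.  `cnt I (n+1) = cnt I n`, so inside a class of `EE n` the relation `EE (n+1)` is equality of the coordinates `q.2.1 n`
in `Fin (p n + 1)`. -/
theorem many_EE_not_mem (I : Set ℕ) (p : ℕ → ℕ) (D : Set K) (n : ℕ) (hn : n ∉ I)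
    (q : Q K p) (r : ℕ) : Many (EE (K := K) I p D) n q r ↔ r ≤ p n + 1 := by
  have hc : cnt I (n + 1) = cnt I n := by
    unfold cnt
    rw [Nat.count_succ, if_neg hn, Nat.add_zero]
  constructor
  · rintro ⟨F, hF, h1, h2⟩
    have h3 : F.card ≤ (Finset.univ : Finset (Fin (p n + 1))).card := by
      refine Finset.card_le_card_of_injOn (fun y => y.2.1 n) (fun _ _ => by simp) ?_
      intro y hy y' hy' h
      refine h2 y hy y' hy' ⟨fun j hj => ?_, fun j hj => ?_⟩
      · rw [hc] at hj
        exact ((h1 y hy).1 j hj).symm.trans ((h1 y' hy').1 j hj)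
      · rcases Nat.lt_succ_iff_lt_or_eq.1 hj with h3 | rfl
        · exact ((h1 y hy).2 j h3).symm.trans ((h1 y' hy').2 j h3)
        · exact h
    rwa [hF, Finset.card_univ, Fintype.card_fin] at h3
  · intro hr
    refine ⟨(Finset.univ : Finset (Fin r)).image
      (fun i => ((q.1, Function.update q.2.1 n (Fin.castLE hr i), q.2.2) : Q K p)), ?_, ?_, ?_⟩
    · rw [Finset.card_image_of_injective, Finset.card_univ, Fintype.card_fin]
      intro i j h
      have h1 : Function.update q.2.1 n (Fin.castLE hr i) = Function.update q.2.1 n (Fin.castLE hr j) :=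
        congrArg (fun z : Q K p => z.2.1) h
      have h2 := congrFun h1 n
      rw [Function.update_self, Function.update_self] at h2
      exact Fin.castLE_injective hr h2
    · intro y hy
      obtain ⟨i, -, rfl⟩ := Finset.mem_image.1 hy
      refine ⟨fun _ _ => rfl, fun j hj => ?_⟩
      simp only
      rw [Function.update_of_ne (by omega)]
    · intro y hy y' hy' h
      obtain ⟨i, -, rfl⟩ := Finset.mem_image.1 hy
      obtain ⟨j, -, rfl⟩ := Finset.mem_image.1 hy'
      have h1 := h.2 n (Nat.lt_succ_self n)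
      simp only [Function.update_self] at h1
      rw [h1]

private theorem many_comp {X Y : Type*} (R : ℕ → Y → Y → Prop) (e : X ≃ Y) (n : ℕ) (x : X) (r : ℕ) :
    Many (fun n a b => R n (e a) (e b)) n x r ↔ Many R n (e x) r := by
  constructor
  · rintro ⟨F, hF, h1, h2⟩
    refine ⟨F.map e.toEmbedding, by rw [Finset.card_map, hF], ?_, ?_⟩
    · intro y hy
      obtain ⟨a, ha, rfl⟩ := Finset.mem_map.1 hy
      exact h1 a ha
    · intro y hy y' hy' h
      obtain ⟨a, ha, rfl⟩ := Finset.mem_map.1 hy
      obtain ⟨b, hb, rfl⟩ := Finset.mem_map.1 hy'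
      rw [h2 a ha b hb h]
  · rintro ⟨F, hF, h1, h2⟩
    refine ⟨F.map e.symm.toEmbedding, by rw [Finset.card_map, hF], ?_, ?_⟩
    · intro y hy
      obtain ⟨a, ha, rfl⟩ := Finset.mem_map.1 hy
      simpa using h1 a ha
    · intro y hy y' hy' h
      obtain ⟨a, ha, rfl⟩ := Finset.mem_map.1 hy
      obtain ⟨b, hb, rfl⟩ := Finset.mem_map.1 hy'
      have h3 : a = b := h2 a ha b hb (by simpa using h)
      rw [h3]

private theorem ns_comp {X Y : Type*} {R : ℕ → Y → Y → Prop} (hR : NS R) (e : X ≃ Y) :
    NS (fun n a b => R n (e a) (e b)) where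
  refl := fun n x => hR.refl n (e x)
  symm := fun n x y h => hR.symm n _ _ h
  trans := fun n x y z h h' => hR.trans n _ _ _ h h'
  mono := fun n x y h => hR.mono n _ _ h
  zero := fun x y => hR.zero _ _
  inf := by
    intro n x F
    obtain ⟨y, hy, h⟩ := hR.inf n (e x) (F.map e.toEmbedding)
    refine ⟨e.symm y, fun h' => hy ?_, by simpa using h⟩
    rw [Finset.mem_map]
    exact ⟨_, h', by simp⟩

/-- Proof.  By `elem_equiv` (with `X = K` and `R n a b = EE I p _ n (e a) (e b)`; or transport along `e`), `ns_EE`, `ns_prod`, `many_…`. -/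
theorem codes_model (hK : KOK l K) (A : ℕ → Type) [∀ n, Nonempty (A n)]
    (I : Set ℕ) (hI : I = {n | Infinite (A n)}) (hA : I.Infinite) (p : ℕ → ℕ)
    (hp : ∀ n, n ∉ I → Nat.card (A n) = p n + 1) (S : Set K) (e : K ≃ Q K p)
    (π : ℕ × K × K ≃ K) (η : K → Bool) : CodesModel (TA A) π (code l S I p e π η) := by
  have h1 : NS (X := ∀ n, A n) (fun n x y => ∀ j < n, x j = y j) := ns_prod A (by rw [← hI]; exact hA)
  have h2 : NS (fun n a b => EE I p (DD l S η) n (e a) (e b)) := ns_comp (ns_EE hK I p (DD l S η)) e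
  have h3 : ∀ n (x : ∀ n, A n) (y : K) r, Many (X := ∀ n, A n) (fun n x y => ∀ j < n, x j = y j) n x r ↔
      Many (fun n a b => EE I p (DD l S η) n (e a) (e b)) n y r := by
    intro n x y r
    rw [many_prod, many_comp (EE I p (DD l S η))]
    by_cases hn : n ∈ I
    · have hn' : Infinite (A n) := by rw [hI] at hn; exact hn
      exact iff_of_true (Infinite.exists_subset_card_eq (A n) r) (many_EE_mem hK I p _ n hn (e y) r)
    · have hn' : Finite (A n) := by
        rw [hI] at hn
        exact not_infinite_iff_finite.1 hn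
      have := Fintype.ofFinite (A n)
      rw [many_EE_not_mem I p _ n hn, ← hp n hn, Nat.card_eq_fintype_card]
      constructor
      · rintro ⟨F, rfl⟩
        exact Finset.card_le_univ F
      · intro h
        obtain ⟨F, -, hF⟩ := Finset.exists_subset_card_eq (s := (Finset.univ : Finset (A n))) (n := r)
          (by rwa [Finset.card_univ])
        exact ⟨F, hF⟩
  have e1 : prodStr A = mkStr (X := ∀ n, A n) (fun n x y => ∀ j < n + 1, x j = y j) := by
    unfold prodStr
    congr 1
    funext n x y
    exact propext ⟨fun h j hj => h j (Nat.lt_succ_iff.1 hj), fun h j hj => h j (Nat.lt_succ_iff.2 hj)⟩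
  have e2 : codeStr π (code l S I p e π η) =
      mkStr (X := K) (fun n a b => EE I p (DD l S η) (n + 1) (e a) (e b)) := by
    unfold codeStr
    congr 1
    funext n a b
    simp [code]
  unfold CodesModel TA
  rw [e1, e2]
  refine @FirstOrder.Language.Theory.Model.mk LE K (mkStr (X := K) (fun n a b => EE I p (DD l S η) (n + 1) (e a) (e b))) _ ?_
  intro φ hφ
  exact (elem_equiv h1 h2 h3 φ).1 hφ

end MP8da
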