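import Pool.Agent.Lib_MP_8da2c8.Main

/-!
MP_8da2c8_lc.  Let `l` (`λ`) be an infinite cardinal with `2 ^ l = l⁺`, `κ = l⁺`, and let `K` be the
canonical well-order of type `κ`.  Let `A 0, A 1, …` be nonempty sets, infinitely many of them
infinite, and let `T` be the complete theory of the product of the `A n` with the refining
equivalence relations `E n x y ↔ x i = y i for all i ≤ n`.  Then for every `S ⊆ κ` the relation of
equality on `S` modulo the nonstationary ideal of `κ` is Borel reducible to the isomorphism relation
of `T` on `2^κ`.  In particular this holds for the set of points of cofinality `λ` (first clause).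
-/

namespace Pool.Agent.Results.MP_8da2c8_lc.RefiningEqNonstat

open Cardinal Set MP8da

universe u

theorem kok (l : Cardinal.{u}) (hl : ℵ₀ ≤ l) (h2 : (2 : Cardinal.{u}) ^ l = Order.succ l) :
    KOK l (Order.succ l).ord.ToType where
  inf := hl
  card := by simp
  init := fun a => by
    have h := Cardinal.mk_Iio_toType_ord_lt a
    exact Order.lt_succ_iff.1 h
  gch := h2

theorem result (l : Cardinal.{u}) (hl : ℵ₀ ≤ l) (h2 : (2 : Cardinal.{u}) ^ l = Order.succ l)
    (A : ℕ → Type) (hne : ∀ n, Nonempty (A n)) (hA : {n | Infinite (A n)}.Infinite)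
    (π : ℕ × (Order.succ l).ord.ToType × (Order.succ l).ord.ToType ≃
      (Order.succ l).ord.ToType) :
    BorelRed (EqNS (cofPts (Order.succ l).ord.ToType l)) (Isom (TA A) π) ∧
      ∀ S : Set (Order.succ l).ord.ToType, BorelRed (EqNS S) (Isom (TA A) π) := by
  have hK := kok l hl h2
  have hne' : Nonempty (Order.succ l).ord.ToType := by
    rw [← Cardinal.mk_ne_zero_iff, hK.card]
    exact (Order.succ_ne_bot l)
  let _ : Inhabited (Order.succ l).ord.ToType := ⟨Classical.choice hne'⟩
  exact ⟨main hK A hA _ π, fun S => main hK A hA S π⟩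

end Pool.Agent.Results.MP_8da2c8_lc.RefiningEqNonstat
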