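import Pool.Agent.Lib_MP_8da2c8.Defs

/-!
STEP RigidA: the abstract invariants `Big` and `Rk` (unfold `Rk` with `rk_iff`).
-/

namespace MP8da

open Cardinal Set

universe u
variable {K : Type u} [LinearOrder K] [WellFoundedLT K] {X X' : Type*}

/-- Proof.  Otherwise there is a countable `C` with: every `q'` with `R k q q'` has `c ∈ C` with
`R (k+1) q' c`.  Choose `c i ∈ C` for `q' = f i`; then `i ↦ c i` is injective by `hinj`, so `ι` is countable. -/
theorem big_of_injective (R : ℕ → X → X → Prop) (k : ℕ) (q : X) {ι : Type*} [Uncountable ι]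
    (f : ι → X) (hf : ∀ i, R k q (f i))
    (hinj : ∀ i i' c, R (k + 1) (f i) c → R (k + 1) (f i') c → i = i') : Big R k q := by
  intro C hC
  by_contra hne
  push Not at hne
  choose c hcC hc using fun i => hne (f i) (hf i)
  have : Countable C := hC.to_subtype
  have inj : Function.Injective (fun i => (⟨c i, hcC i⟩ : C)) := by
    intro i i' hii
    have h1 : c i = c i' := congrArg Subtype.val hii
    refine hinj i i' (c i) (hc i) ?_
    rw [h1]
    exact hc i'
  exact not_countable inj.countable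

/-- Proof.  For every `y : Y` in the image under `f` of the class of `q` choose an element of the class with value `y`;
these elements form a countable set `C` contradicting `Big`. -/
theorem not_big_of_fun (R : ℕ → X → X → Prop) (k : ℕ) (q : X) {Y : Type*} [Countable Y]
    (f : X → Y) (h : ∀ q' q'', R k q q' → R k q q'' → f q' = f q'' → R (k + 1) q' q'') :
    ¬ Big R k q := by
  intro hB
  obtain ⟨q', hq', hno⟩ := hB
    (Set.range (fun y : {y : Y // ∃ q', R k q q' ∧ f q' = y} => y.2.choose))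
    (Set.countable_range _)
  have hex : ∃ q'', R k q q'' ∧ f q'' = f q' := ⟨q', hq', rfl⟩
  have hs := hex.choose_spec
  exact hno hex.choose ⟨⟨f q', hex⟩, rfl⟩ (h q' hex.choose hq' hs.1 hs.2.symm)

theorem big_map (R : ℕ → X → X → Prop) (R' : ℕ → X' → X' → Prop) (g : X ≃ X')
    (hg : ∀ k q q', R k q q' ↔ R' k (g q) (g q')) (k : ℕ) (q : X) :
    Big R k q ↔ Big R' k (g q) := by
  constructor
  · intro h C hC
    obtain ⟨q', h1, h2⟩ := h (g ⁻¹' C) (hC.preimage g.injective)
    refine ⟨g q', (hg k q q').1 h1, fun c hc hR => ?_⟩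
    refine h2 (g.symm c) ?_ ((hg (k + 1) q' (g.symm c)).2 ?_)
    · change g (g.symm c) ∈ C
      rw [g.apply_symm_apply]
      exact hc
    · rw [g.apply_symm_apply]
      exact hR
  · intro h C hC
    obtain ⟨q', h1, h2⟩ := h (g '' C) (hC.image g)
    refine ⟨g.symm q', (hg k q (g.symm q')).2 (by rwa [g.apply_symm_apply]), fun c hc hR => ?_⟩
    refine h2 (g c) (Set.mem_image_of_mem g hc) ?_
    have h3 := (hg (k + 1) (g.symm q') c).1 hR
    rwa [g.apply_symm_apply] at h3

/-- Proof: induction on `ρ`, with `rk_iff`. -/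
theorem rk_map (R : ℕ → X → X → Prop) (R' : ℕ → X' → X' → Prop) (g : X ≃ X')
    (hg : ∀ k q q', R k q q' ↔ R' k (g q) (g q')) (ρ : K) (k : ℕ) (q : X) :
    Rk R ρ k q ↔ Rk R' ρ k (g q) := by
  induction ρ using WellFoundedLT.induction generalizing k q with
  | ind ρ ih =>
    rw [rk_iff, rk_iff, big_map R R' g hg k q]
    constructor
    · rintro ⟨h1, h2, h3⟩
      refine ⟨h1, fun σ hσ => ?_, fun q' hq' hB => ?_⟩
      · obtain ⟨q', hq', hr⟩ := h2 σ hσ
        exact ⟨g q', (hg k q q').1 hq', (ih σ hσ (k + 1) q').1 hr⟩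
      · have e : g (g.symm q') = q' := g.apply_symm_apply q'
        have hq2 : R k q (g.symm q') := (hg k q (g.symm q')).2 (by rwa [e])
        have hB2 : Big R (k + 1) (g.symm q') :=
          (big_map R R' g hg (k + 1) (g.symm q')).2 (by rwa [e])
        obtain ⟨σ, hσ, hr⟩ := h3 _ hq2 hB2
        refine ⟨σ, hσ, ?_⟩
        have h4 := (ih σ hσ (k + 1) (g.symm q')).1 hr
        rwa [e] at h4
    · rintro ⟨h1, h2, h3⟩
      refine ⟨h1, fun σ hσ => ?_, fun q' hq' hB => ?_⟩
      · obtain ⟨q', hq', hr⟩ := h2 σ hσ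
        have e : g (g.symm q') = q' := g.apply_symm_apply q'
        refine ⟨g.symm q', (hg k q (g.symm q')).2 (by rwa [e]),
          (ih σ hσ (k + 1) (g.symm q')).2 (by rwa [e])⟩
      · obtain ⟨σ, hσ, hr⟩ := h3 (g q') ((hg k q q').1 hq')
          ((big_map R R' g hg (k + 1) q').1 hB)
        exact ⟨σ, hσ, (ih σ hσ (k + 1) q').2 hr⟩

/-- Proof: strong induction on `σ`, for all `ρ k q`.  Suppose `σ ≠ ρ`.
If `σ < ρ`: by `Rk R ρ k q` there is `q'` with `R k q q'` and `Rk R σ (k+1) q'`; so `Big R (k+1) q'`, and by `Rk R σ k q` there is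
`τ < σ` with `Rk R τ (k+1) q'`; the induction hypothesis for `τ` gives `τ = σ`, contradiction.
If `ρ < σ`: there is `q'` with `R k q q'` and `Rk R ρ (k+1) q'` (from `Rk R σ k q`), and (from `Rk R ρ k q`) `τ < ρ` with
`Rk R τ (k+1) q'`; the induction hypothesis for `τ < σ` gives `τ = ρ`, contradiction. -/
theorem rk_unique (R : ℕ → X → X → Prop) {σ ρ : K} {k : ℕ} {q : X} (h1 : Rk R σ k q)
    (h2 : Rk R ρ k q) : σ = ρ := by
  induction σ using WellFoundedLT.induction generalizing ρ k q with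
  | ind σ ih =>
    rcases lt_trichotomy σ ρ with hlt | heq | hgt
    · exfalso
      obtain ⟨q', hq', hr⟩ := ((rk_iff R ρ k q).1 h2).2.1 σ hlt
      have hB : Big R (k + 1) q' := ((rk_iff R σ (k + 1) q').1 hr).1
      obtain ⟨τ, hτ, hrτ⟩ := ((rk_iff R σ k q).1 h1).2.2 q' hq' hB
      exact hτ.ne (ih τ hτ hrτ hr)
    · exact heq
    · exfalso
      obtain ⟨q', hq', hr⟩ := ((rk_iff R σ k q).1 h1).2.1 ρ hgt
      have hB : Big R (k + 1) q' := ((rk_iff R ρ (k + 1) q').1 hr).1
      obtain ⟨τ, hτ, hrτ⟩ := ((rk_iff R ρ k q).1 h2).2.2 q' hq' hB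
      exact hτ.ne (ih τ (hτ.trans hgt) hrτ hr)

end MP8da
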