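import Pool.Agent.Lib_MP_8da2c8.RigidA
import Pool.Agent.Lib_MP_8da2c8.Ext

/-!
STEP RigidB: the invariants in the structure attached to `D`.

Recall `RR I p D k q q' ↔ Agr k (br D q.1) (br D q'.1) ∧ ∀ j < nI I k, q.2.1 j = q'.2.1 j`.
The `node` of `q` at `k` is the first `k` symbols; its kind is read from `prev (br D q.1) k`.
-/

namespace MP8da

open Cardinal Set
open scoped Classical

universe u
variable {l : Cardinal.{u}} {K : Type u} [LinearOrder K] [WellFoundedLT K] [Inhabited K]
variable {I : Set ℕ} {p : ℕ → ℕ} {D : Set K}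

theorem uncountable_K (hK : KOK l K) : Uncountable K := by
  rw [← Cardinal.aleph0_lt_mk_iff, hK.card]
  exact lt_of_le_of_lt hK.inf (Order.lt_succ l)

theorem rr_symm {k : ℕ} {q q' : Q K p} (h : RR I p D k q q') : RR I p D k q' q :=
  ⟨fun j hj => (h.1 j hj).symm, fun j hj => (h.2 j hj).symm⟩

theorem rr_trans {k : ℕ} {q q' q'' : Q K p} (h : RR I p D k q q') (h' : RR I p D k q' q'') :
    RR I p D k q q'' :=
  ⟨fun j hj => (h.1 j hj).trans (h'.1 j hj), fun j hj => (h.2 j hj).trans (h'.2 j hj)⟩

/-- the child of the node of `q` at `k` given by the symbol `s` -/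
theorem rr_child {k : ℕ} {q : Q K p} {s : Sy K} (hs : Step D (prev (br D q.1) k) s) (i : K) :
    RR I p D k q (ext (br D q.1) k s, q.2.1, i) ∧
      br D (ext (br D q.1) k s) = ext (br D q.1) k s := by
  have h : br D (ext (br D q.1) k s) = ext (br D q.1) k s :=
    br_of_valid (ext_valid (br_valid D q.1) k s hs)
  refine ⟨⟨?_, fun _ _ => rfl⟩, h⟩
  simp only
  rw [h]
  exact agr_ext _ _ _

private theorem step_of_rr {k : ℕ} {q q' : Q K p} (h : RR I p D k q q') :
    Step D (prev (br D q.1) k) (br D q'.1 k) := by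
  rw [prev_eq_of_agr h.1]
  exact (br_valid D q'.1).1 k

private theorem prev_child {k : ℕ} {q : Q K p} {s : Sy K} (hs : Step D (prev (br D q.1) k) s) (i : K) :
    prev (br D ((ext (br D q.1) k s, q.2.1, i) : Q K p).1) (k + 1) = s := by
  simp only [prev]
  rw [(rr_child (I := ∅) hs i).2, ext_at]

private theorem not_big_aux (k : ℕ) (q : Q K p)
    (h : ∀ s, Step D (prev (br D q.1) k) s → ∃ n, s = .z n) : ¬ Big (RR I p D) k q := by
  refine not_big_of_fun (RR I p D) k q
    (fun q' => (((match br D q'.1 k with | .z n => n | _ => 0), fun j : Fin (nI I (k + 1)) => q'.2.1 j) :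
      ℕ × (∀ j : Fin (nI I (k + 1)), Fin (p j + 1)))) ?_
  intro q' q'' h1 h2 h3
  obtain ⟨n', hn'⟩ := h _ (step_of_rr h1)
  obtain ⟨n'', hn''⟩ := h _ (step_of_rr h2)
  simp only [hn', hn'', Prod.mk.injEq] at h3
  refine ⟨fun j hj => ?_, fun j hj => ?_⟩
  · rcases Nat.lt_succ_iff_lt_or_eq.1 hj with h4 | rfl
    · exact (h1.1 j h4).symm.trans (h2.1 j h4)
    · rw [hn', hn'', h3.1]
  · exact congrFun h3.2 ⟨j, hj⟩

private theorem big_aux (hK : KOK l K) (k : ℕ) (q : Q K p) (s : K → Sy K) (hs : Function.Injective s)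
    (h : ∀ i, Step D (prev (br D q.1) k) (s i)) : Big (RR I p D) k q := by
  have := uncountable_K hK
  refine big_of_injective (RR I p D) k q (fun i => (ext (br D q.1) k (s i), q.2.1, default))
    (fun i => (rr_child (h i) default).1) ?_
  intro i i' c h1 h2
  have h3 := h1.1 k (Nat.lt_succ_self k)
  have h4 := h2.1 k (Nat.lt_succ_self k)
  simp only at h3 h4
  rw [(rr_child (I := I) (h i) default).2, ext_at] at h3
  rw [(rr_child (I := I) (h i') default).2, ext_at] at h4
  exact hs (h3.trans h4.symm)

/-- Proof: `not_big_of_fun` with `f q' = (n, fun j : Fin (nI I (k+1)) => q'.2.1 j)` where `n` is such that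
`br D q'.1 k = .z n` (and `n = 0` if there is none); after `t i` only symbols `z n` are possible. -/
theorem not_big_t (k : ℕ) (q : Q K p) (i : K) (h : prev (br D q.1) k = .t i) :
    ¬ Big (RR I p D) k q := by
  refine not_big_aux k q (fun s hs => ?_)
  rw [h] at hs
  cases s with
  | m a v => exact hs.elim
  | g ρ j => exact hs.elim
  | t j => exact hs.elim
  | z n => exact ⟨n, rfl⟩

theorem not_big_z (k : ℕ) (q : Q K p) (n : ℕ) (h : prev (br D q.1) k = .z n) :
    ¬ Big (RR I p D) k q := by
  refine not_big_aux k q (fun s hs => ?_)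
  rw [h] at hs
  cases s with
  | m a v => exact hs.elim
  | g ρ j => exact hs.elim
  | t j => exact hs.elim
  | z n => exact ⟨n, rfl⟩

/-- Proof: `big_of_injective` with the children `t i`, `i : K`. -/
theorem big_g (hK : KOK l K) (k : ℕ) (q : Q K p) (ρ i : K) (h : prev (br D q.1) k = .g ρ i) :
    Big (RR I p D) k q := by
  refine big_aux hK k q (fun j => .t j) (fun j j' hj => ?_) (fun j => ?_)
  · simpa only [Sy.t.injEq] using hj
  · rw [h]
    trivial

/-- Proof: `big_of_injective` with the children `g a i`, `i : K`. -/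
theorem big_m (hK : KOK l K) (k : ℕ) (q : Q K p) (a : K) (v : US K)
    (h : prev (br D q.1) k = .m a v) : Big (RR I p D) k q := by
  refine big_aux hK k q (fun j => .g a j) (fun j j' hj => ?_) (fun j => ?_)
  · simpa only [Sy.g.injEq, true_and] using hj
  · rw [h]
    rfl

/-- Proof: strong induction on `ρ` (for all `k, q, i`), with `rk_iff`.  Big: `big_g`.  For `σ < ρ` the child `g σ default`.
If `RR k q q'` and `Big (k+1) q'`: the symbol `br D q'.1 k` follows `prev (br D q'.1) k = prev (br D q.1) k = .g ρ i`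
(`prev_eq_of_agr`), so it is `g σ j` with `σ < ρ` (use the induction hypothesis) or `t j` (impossible by `not_big_t`). -/
theorem rk_g (hK : KOK l K) (ρ : K) (k : ℕ) (q : Q K p) (i : K)
    (h : prev (br D q.1) k = .g ρ i) : Rk (RR I p D) ρ k q := by
  induction ρ using WellFoundedLT.induction generalizing k q i with
  | ind ρ ih =>
    rw [rk_iff]
    refine ⟨big_g hK k q ρ i h, fun σ hσ => ?_, fun q' hq' hb => ?_⟩
    · have hs : Step D (prev (br D q.1) k) (.g σ default) := by
        rw [h]
        exact hσ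
      exact ⟨_, (rr_child hs default).1, ih σ hσ (k + 1) _ default (prev_child hs default)⟩
    · have hs := step_of_rr hq'
      rw [h] at hs
      cases hc : br D q'.1 k with
      | m a v =>
        rw [hc] at hs
        exact hs.elim
      | g σ j =>
        rw [hc] at hs
        exact ⟨σ, hs, ih σ hs (k + 1) q' j hc⟩
      | t j => exact absurd hb (not_big_t (k + 1) q' j hc)
      | z n =>
        rw [hc] at hs
        exact hs.elim

/-- Proof: strong induction on `σ` (for all `k, q, a, v`).  If `Rk σ k q`, the child `q'` with symbol `.m default (.y ∅ default 0)` is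
big at `k+1` (`big_m`), so `Rk τ (k+1) q'` for some `τ < σ`, contradicting the induction hypothesis. -/
theorem not_rk_m (hK : KOK l K) (σ : K) (k : ℕ) (q : Q K p) (a : K) (v : US K)
    (h : prev (br D q.1) k = .m a v) : ¬ Rk (RR I p D) σ k q := by
  induction σ using WellFoundedLT.induction generalizing k q a v with
  | ind σ ih =>
    intro hr
    rw [rk_iff] at hr
    have hs : Step D (prev (br D q.1) k) (.m default (.y ∅ default 0)) := by
      rw [h]
      trivial
    obtain ⟨τ, hτ, h1⟩ := hr.2.2 _ (rr_child hs default).1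
      (big_m hK (k + 1) _ default (.y ∅ default 0) (prev_child hs default))
    exact ih τ hτ (k + 1) _ default (.y ∅ default 0) (prev_child hs default) h1

/-- Proof.  `→`: the symbol `br D q'.1 k` follows `.m a v`, so it is main (impossible by `not_rk_m`) or
`g a j`, and then `Rk a (k+1) q'` by `rk_g`, so `σ = a` by `rk_unique`.  `←`: the child `g a default`. -/
theorem label_m (hK : KOK l K) (σ : K) (k : ℕ) (q : Q K p) (a : K) (v : US K)
    (h : prev (br D q.1) k = .m a v) :
    (∃ q', RR I p D k q q' ∧ Rk (RR I p D) σ (k + 1) q') ↔ σ = a := by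
  constructor
  · rintro ⟨q', hq', hr⟩
    have hs := step_of_rr hq'
    rw [h] at hs
    cases hc : br D q'.1 k with
    | m b w => exact absurd hr (not_rk_m hK σ (k + 1) q' b w hc)
    | g ρ j =>
      rw [hc] at hs
      have h1 : ρ = a := hs
      have h2 : Rk (RR I p D) ρ (k + 1) q' := rk_g hK ρ (k + 1) q' j hc
      exact (rk_unique _ hr h2).trans h1
    | t j =>
      rw [hc] at hs
      exact hs.elim
    | z n =>
      rw [hc] at hs
      exact hs.elim
  · rintro rfl
    have hs : Step D (prev (br D q.1) k) (.g σ default) := by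
      rw [h]
      rfl
    exact ⟨_, (rr_child hs default).1, rk_g hK σ (k + 1) _ default (prev_child hs default)⟩

/-- Isomorphisms keep main symbols and their labels.
Proof.  Let `c = br E (g q).1`; `prev c (k+1) = c k`.  At `k+1`, `q` is big and has no rank (`big_m`, `not_rk_m`), and the child of rank `a`
exists (`label_m`); by `big_map`, `rk_map` the same holds for `g q`.  So `c k` is not `g ρ i` (`rk_g`),
not `t i`, not `z n` (`not_big_t`, `not_big_z`); so `c k = .m a' v'`, and `a = a'` by `label_m` for `g q`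
(transport the witness `q'` by `g`). -/
theorem label_map (hK : KOK l K) {E : Set K} (g : Q K p ≃ Q K p)
    (hg : ∀ k q q', RR I p D k q q' ↔ RR I p E k (g q) (g q')) (q : Q K p) (k : ℕ) (a : K)
    (h : ∃ v, br D q.1 k = .m a v) : ∃ v, br E (g q).1 k = .m a v := by
  obtain ⟨v, hv⟩ := h
  have h1 : Big (RR I p D) (k + 1) q := big_m hK (k + 1) q a v hv
  have h2 : Big (RR I p E) (k + 1) (g q) := (big_map (RR I p D) (RR I p E) g hg (k + 1) q).1 h1
  cases hc : br E (g q).1 k with
  | m b w =>
    obtain ⟨q', hq', hr⟩ := (label_m hK a (k + 1) q a v hv).2 rfl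
    have h3 : a = b := (label_m hK a (k + 1) (g q) b w hc).1
      ⟨g q', (hg _ _ _).1 hq', (rk_map (RR I p D) (RR I p E) g hg a (k + 1 + 1) q').1 hr⟩
    exact ⟨w, by rw [h3]⟩
  | g ρ j =>
    have h3 : Rk (RR I p E) ρ (k + 1) (g q) := rk_g hK ρ (k + 1) (g q) j hc
    exact absurd ((rk_map (RR I p D) (RR I p E) g hg ρ (k + 1) q).2 h3) (not_rk_m hK ρ (k + 1) q a v hv)
  | t j => exact absurd h2 (not_big_t (k + 1) (g q) j hc)
  | z n => exact absurd h2 (not_big_z (k + 1) (g q) n hc)

end MP8da
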