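import Mathlib

/-!
Statement-level definitions for MP_8da2c8_lc.

`K` is a well-ordered set of order type `κ = λ⁺`; the generalized Cantor space `2^κ` is
`K → Bool` with the bounded topology.
-/

namespace MP8da

open Cardinal Set FirstOrder

universe u

section space
variable {K : Type u} [LinearOrder K]

/-- open sets of the bounded topology on `2^K`: every point `η` of `U` has an initial segment
`η ↾ δ` all of whose extensions are in `U` -/
def BOpen (U : Set (K → Bool)) : Prop :=
  ∀ η ∈ U, ∃ δ : K, ∀ ξ : K → Bool, (∀ α < δ, ξ α = η α) → ξ ∈ U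

/-- the `κ`-Borel sets: generated from the open sets by complements and unions of at most `κ`
sets (hence also intersections of at most `κ` sets) -/
inductive KBorel : Set (K → Bool) → Prop
  | basic (U : Set (K → Bool)) : BOpen U → KBorel U
  | compl (A : Set (K → Bool)) : KBorel A → KBorel Aᶜ
  | union (ι : Type u) (A : ι → Set (K → Bool)) : #ι ≤ #K → (∀ i, KBorel (A i)) →
      KBorel (⋃ i, A i)

/-- a map is Borel if preimages of open sets are Borel -/
def BorelMap (f : (K → Bool) → (K → Bool)) : Prop :=
  ∀ U, BOpen U → KBorel (f ⁻¹' U)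

/-- Borel reducibility -/
def BorelRed (E F : (K → Bool) → (K → Bool) → Prop) : Prop :=
  ∃ f, BorelMap f ∧ ∀ η ξ, E η ξ ↔ F (f η) (f ξ)

/-- equality on `S` modulo the nonstationary ideal -/
def EqNS (S : Set K) (η ξ : K → Bool) : Prop :=
  ¬ IsStationary {α | α ∈ S ∧ η α ≠ ξ α}

/-- the points of cofinality `μ` -/
def cofPts (K : Type u) [LinearOrder K] (μ : Cardinal.{u}) : Set K :=
  {α | Order.cof (Iio α) = μ}

end space

/-! ### The theories -/

/-- relation symbols: one binary symbol `E n` for every `n` -/
inductive Rel : ℕ → Type
  | E (n : ℕ) : Rel 2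

/-- the language of countably many binary relations -/
def LE : FirstOrder.Language.{0, 0} := ⟨fun _ => Empty, Rel⟩

/-- the structure with universe `X` in which the symbol `E n` is interpreted by `R n` -/
@[reducible] def mkStr {X : Type*} (R : ℕ → X → X → Prop) : LE.Structure X where
  funMap := fun {_} f => Empty.elim f
  RelMap := fun {_} r => match r with
    | .E n => fun v => R n (v 0) (v 1)

/-- the product of the sets `A 0, A 1, …` with the refining equivalence relations
`E n x y ↔ x i = y i for all i ≤ n` -/
@[reducible] def prodStr (A : ℕ → Type) : LE.Structure (∀ n, A n) :=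
  mkStr fun n x y => ∀ i ≤ n, x i = y i

/-- the complete theory of `refining equivalence relations' with splitting given by `A` -/
def TA (A : ℕ → Type) : LE.Theory :=
  @FirstOrder.Language.completeTheory LE (∀ n, A n) (prodStr A)

section isom
variable {K : Type u}

/-- the structure with universe `K` coded by `η ∈ 2^K`, for a fixed bijection
`π : ℕ × K × K ≃ K` -/
@[reducible] def codeStr (π : ℕ × K × K ≃ K) (η : K → Bool) : LE.Structure K :=
  mkStr fun n a b => η (π (n, a, b)) = true

/-- `η` codes a model of `T` -/
def CodesModel (T : LE.Theory) (π : ℕ × K × K ≃ K) (η : K → Bool) : Prop :=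
  @FirstOrder.Language.Theory.Model LE K (codeStr π η) T

/-- the isomorphism relation of `T` on `2^K` -/
def Isom (T : LE.Theory) (π : ℕ × K × K ≃ K) (η ξ : K → Bool) : Prop :=
  (CodesModel T π η ∧ CodesModel T π ξ ∧
      Nonempty (@FirstOrder.Language.Equiv LE K K (codeStr π η) (codeStr π ξ))) ∨
    (¬ CodesModel T π η ∧ ¬ CodesModel T π ξ)

end isom

end MP8da
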